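import Pool.Agent.H12.CSP.A.Helper460_OutF.Fam2

set_option autoImplicit false
set_option linter.unusedSectionVars false
set_option linter.unusedSimpArgs false

namespace Pool.Agent.Helper460_OutF

open FreeGroup (of)

variable {ι : Type} [DecidableEq ι] [Fintype ι]

section

variable (K : Subgroup (MulAut (FreeGroup ι)))

/-- The subgroup generated by `K` and the automorphisms trivial on the abelianisation. -/
def KH : Subgroup (MulAut (FreeGroup ι)) := IA (FreeGroup ι) ⊔ K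

lemma IA_le_KH : IA (FreeGroup ι) ≤ KH K := le_sup_left

lemma K_le_KH : K ≤ KH K := le_sup_right

lemma mem_KH {x : MulAut (FreeGroup ι)} (hx : x ∈ KH K) :
    ∃ a ∈ IA (FreeGroup ι), ∃ k ∈ K, a * k = x := by
  have h := Subgroup.normal_mul (IA (FreeGroup ι)) K
  have h2 : x ∈ ((IA (FreeGroup ι) ⊔ K : Subgroup (MulAut (FreeGroup ι))) :
    Set (MulAut (FreeGroup ι))) := hx
  rw [h] at h2
  obtain ⟨a, ha, k, hk, e⟩ := Set.mem_mul.1 h2
  exact ⟨a, ha, k, hk, e⟩

/-- The normal core of `KH`. -/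
def G0 : Subgroup (MulAut (FreeGroup ι)) := (KH K).normalCore

instance : (G0 K).Normal := Subgroup.normalCore_normal _

lemma G0_le : G0 K ≤ KH K := Subgroup.normalCore_le _

lemma IA_le_G0 : IA (FreeGroup ι) ≤ G0 K := (Subgroup.normal_le_normalCore).2 (IA_le_KH K)

variable [hfi : K.FiniteIndex]

instance : (G0 K).FiniteIndex := by
  have : (KH K).FiniteIndex := Subgroup.finiteIndex_of_le (K_le_KH K)
  exact inferInstanceAs ((KH K).normalCore).FiniteIndex

instance : (KH K).FiniteIndex := Subgroup.finiteIndex_of_le (K_le_KH K)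

instance : Finite (KH K ⧸ K.subgroupOf (KH K)) := inferInstance

lemma card_KH : Nat.card (KH K ⧸ K.subgroupOf (KH K)) ≤ K.relIndex (IA (FreeGroup ι)) := by
  have hfin : Finite (IA (FreeGroup ι) ⧸ K.subgroupOf (IA (FreeGroup ι))) := inferInstance
  let g : IA (FreeGroup ι) ⧸ K.subgroupOf (IA (FreeGroup ι)) → KH K ⧸ K.subgroupOf (KH K) :=
    Quotient.lift (fun a : IA (FreeGroup ι) =>
      (QuotientGroup.mk ⟨a, IA_le_KH K a.2⟩ : KH K ⧸ K.subgroupOf (KH K))) (by
      intro a b hab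
      have h1 : a⁻¹ * b ∈ K.subgroupOf (IA (FreeGroup ι)) := QuotientGroup.leftRel_apply.1 hab
      rw [Subgroup.mem_subgroupOf] at h1
      apply QuotientGroup.eq.2
      rw [Subgroup.mem_subgroupOf]
      exact h1)
  apply Nat.card_le_card_of_surjective g
  intro q
  obtain ⟨⟨x, hx⟩, rfl⟩ := QuotientGroup.mk_surjective q
  obtain ⟨a, ha, k, hk, rfl⟩ := mem_KH K hx
  refine ⟨QuotientGroup.mk ⟨a, ha⟩, ?_⟩
  apply QuotientGroup.eq.2
  rw [Subgroup.mem_subgroupOf]
  show a⁻¹ * (a * k) ∈ K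
  rw [inv_mul_cancel_left]
  exact hk

/-- Subgroups of small relative index in `IA` contain some `N₁(M)`. -/
theorem exists_N1_le (hinn : ∀ g, MulAut.conj g ∈ K)
    (hidx : K.relIndex (IA (FreeGroup ι)) ≤ 2 ^ (Fintype.card ι - 3 + 1)) :
    ∃ M, 0 < M ∧ N1 ι M ≤ K := by
  let X := KH K ⧸ K.subgroupOf (KH K)
  let π : G0 K →* Equiv.Perm X :=
    (MulAction.toPermHom (KH K) X).comp (Subgroup.inclusion (G0_le K))
  have hX : Finite X := inferInstance
  obtain ⟨M, hM, hle⟩ := N1_of_step (step_of_finite (IA_le_G0 K) π (by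
    intro g h
    ext1 q
    obtain ⟨⟨x, hx⟩, rfl⟩ := QuotientGroup.mk_surjective q
    show (QuotientGroup.mk (⟨MulAut.conj g, G0_le K h⟩ * ⟨x, hx⟩) : X) = QuotientGroup.mk ⟨x, hx⟩
    apply QuotientGroup.eq.2
    rw [Subgroup.mem_subgroupOf]
    show (MulAut.conj g * x)⁻¹ * x ∈ K
    have e : (MulAut.conj g * x)⁻¹ * x = MulAut.conj (x⁻¹ g⁻¹) := by
      rw [← conj_mul_aut, inv_inv, map_inv]; group
    rw [e]
    exact hinn _) (noCube_perm ((card_KH K).trans hidx)))
  refine ⟨M, hM, fun z hz => ?_⟩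
  obtain ⟨h1, h2⟩ := mem_kerA.1 (hle hz)
  have h3 := congrArg (fun σ : Equiv.Perm X => σ (QuotientGroup.mk 1)) h2
  have h4 : (QuotientGroup.mk (⟨z, G0_le K h1⟩ * 1) : X) = QuotientGroup.mk 1 := h3
  have h5 := QuotientGroup.eq.1 h4
  rw [Subgroup.mem_subgroupOf] at h5
  have h6 : (z * 1)⁻¹ * 1 ∈ K := h5
  rw [mul_one, mul_one] at h6
  exact inv_mem_iff.1 h6

end

end Pool.Agent.Helper460_OutF
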