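import Pool.Agent.H12.CSP.S.Helper156.OF.Nielsen

set_option autoImplicit false
set_option linter.unusedSectionVars false
set_option linter.unusedSimpArgs false

namespace Pool.Agent.Helper460_OutF

open FreeGroup (of)

variable {ι : Type} [DecidableEq ι]

/-- The retraction killing the `i`-th basis element. -/
def kil (i : ι) : FreeGroup ι →* FreeGroup ι :=
  FreeGroup.lift (fun j => if j = i then 1 else of j)

@[simp] lemma kil_self (i : ι) : kil i (of i) = 1 := by simp [kil]

@[simp] lemma kil_ne {i j : ι} (h : j ≠ i) : kil i (of j) = of j := by simp [kil, h]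

@[simp] lemma kil_ne' {i j : ι} (h : i ≠ j) : kil i (of j) = of j := kil_ne h.symm

lemma kil_comm (i j : ι) (w : FreeGroup ι) : kil i (kil j w) = kil j (kil i w) := by
  have : (kil i).comp (kil j) = (kil j).comp (kil i) := by
    ext k
    simp only [MonoidHom.comp_apply]
    by_cases h1 : k = i
    · subst h1
      by_cases h2 : k = j
      · subst h2; rfl
      · rw [kil_ne h2, kil_self, map_one]
    · rw [kil_ne h1]
      by_cases h2 : k = j
      · subst h2; simp
      · rw [kil_ne h2, kil_ne h1]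
  exact DFunLike.congr_fun this w

@[simp] lemma kil_kil (i : ι) (w : FreeGroup ι) : kil i (kil i w) = kil i w := by
  have : (kil i).comp (kil i) = kil i := by
    ext k
    simp only [MonoidHom.comp_apply]
    by_cases h1 : k = i
    · subst h1; simp
    · rw [kil_ne h1, kil_ne h1]
  exact DFunLike.congr_fun this w

/-- The endomorphism `x_i ↦ u⁻¹ x_i w`. -/
def lrH (i : ι) (u w : FreeGroup ι) : FreeGroup ι →* FreeGroup ι :=
  FreeGroup.lift (fun j => if j = i then (kil i u)⁻¹ * of i * kil i w else of j)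

lemma lrH_self (i : ι) (u w : FreeGroup ι) :
    lrH i u w (of i) = (kil i u)⁻¹ * of i * kil i w := by simp [lrH]

lemma lrH_ne {i j : ι} (h : j ≠ i) (u w : FreeGroup ι) : lrH i u w (of j) = of j := by
  simp [lrH, h]

lemma lrH_kil (i : ι) (u w x : FreeGroup ι) : lrH i u w (kil i x) = kil i x := by
  have : (lrH i u w).comp (kil i) = kil i := by
    ext k
    simp only [MonoidHom.comp_apply]
    by_cases h1 : k = i
    · subst h1; simp
    · rw [kil_ne h1, lrH_ne h1]
  exact DFunLike.congr_fun this x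

lemma lrH_comp (i : ι) (u w u' w' : FreeGroup ι) :
    (lrH i u w).comp (lrH i u' w') = lrH i (u * u') (w * w') := by
  ext k
  simp only [MonoidHom.comp_apply]
  by_cases h1 : k = i
  · subst h1
    rw [lrH_self, lrH_self, map_mul, map_mul, map_inv, lrH_kil, lrH_kil, lrH_self, map_mul, map_mul]
    group
  · rw [lrH_ne h1, lrH_ne h1, lrH_ne h1]

lemma lrH_one (i : ι) : lrH i 1 1 = MonoidHom.id (FreeGroup ι) := by
  ext k
  by_cases h1 : k = i
  · subst h1
    rw [lrH_self]; simp
  · rw [lrH_ne h1]; rfl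

/-- The automorphism `x_i ↦ u⁻¹ x_i w`, where occurrences of `x_i` in `u`, `w` are deleted. -/
def lr (i : ι) : FreeGroup ι × FreeGroup ι →* MulAut (FreeGroup ι) where
  toFun p := MonoidHom.toMulEquiv (lrH i p.1 p.2) (lrH i p.1⁻¹ p.2⁻¹)
    (by rw [lrH_comp, inv_mul_cancel, inv_mul_cancel, lrH_one])
    (by rw [lrH_comp, mul_inv_cancel, mul_inv_cancel, lrH_one])
  map_one' := by
    ext x
    exact DFunLike.congr_fun (lrH_one i) x
  map_mul' p q := by
    ext x
    exact (DFunLike.congr_fun (lrH_comp i p.1 p.2 q.1 q.2) x).symm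

/-- The right transvection `x_i ↦ x_i w`. -/
def rr (i : ι) : FreeGroup ι →* MulAut (FreeGroup ι) :=
  (lr i).comp (MonoidHom.inr (FreeGroup ι) (FreeGroup ι))

/-- The left transvection `x_i ↦ w⁻¹ x_i`. -/
def ll (i : ι) : FreeGroup ι →* MulAut (FreeGroup ι) :=
  (lr i).comp (MonoidHom.inl (FreeGroup ι) (FreeGroup ι))

/-- The partial conjugation `x_i ↦ w⁻¹ x_i w`. -/
def cc (i : ι) : FreeGroup ι →* MulAut (FreeGroup ι) :=
  (lr i).comp ((MonoidHom.id (FreeGroup ι)).prod (MonoidHom.id (FreeGroup ι)))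

lemma lr_apply (i : ι) (p : FreeGroup ι × FreeGroup ι) (x : FreeGroup ι) :
    lr i p x = lrH i p.1 p.2 x := rfl

@[simp] lemma rr_self (i : ι) (w : FreeGroup ι) : rr i w (of i) = of i * kil i w := by
  show lrH i 1 w (of i) = _
  rw [lrH_self]; simp

@[simp] lemma ll_self (i : ι) (w : FreeGroup ι) : ll i w (of i) = (kil i w)⁻¹ * of i := by
  show lrH i w 1 (of i) = _
  rw [lrH_self]; simp

@[simp] lemma cc_self (i : ι) (w : FreeGroup ι) :
    cc i w (of i) = (kil i w)⁻¹ * of i * kil i w := by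
  show lrH i w w (of i) = _
  rw [lrH_self]

lemma lr_fix (i : ι) (p : FreeGroup ι × FreeGroup ι) {x : FreeGroup ι} (h : kil i x = x) :
    lr i p x = x := by
  rw [lr_apply, ← h, lrH_kil]

lemma rr_fix (i : ι) (w : FreeGroup ι) {x : FreeGroup ι} (h : kil i x = x) : rr i w x = x :=
  lr_fix i _ h

lemma ll_fix (i : ι) (w : FreeGroup ι) {x : FreeGroup ι} (h : kil i x = x) : ll i w x = x :=
  lr_fix i _ h

lemma cc_fix (i : ι) (w : FreeGroup ι) {x : FreeGroup ι} (h : kil i x = x) : cc i w x = x :=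
  lr_fix i _ h

@[simp] lemma rr_ne {i j : ι} (h : j ≠ i) (w : FreeGroup ι) : rr i w (of j) = of j :=
  rr_fix i w (kil_ne h)

@[simp] lemma ll_ne {i j : ι} (h : j ≠ i) (w : FreeGroup ι) : ll i w (of j) = of j :=
  ll_fix i w (kil_ne h)

@[simp] lemma cc_ne {i j : ι} (h : j ≠ i) (w : FreeGroup ι) : cc i w (of j) = of j :=
  cc_fix i w (kil_ne h)

lemma cc_eq (i : ι) (w : FreeGroup ι) : cc i w = ll i w * rr i w := by
  show lr i (w, w) = lr i (w, 1) * lr i (1, w)
  rw [← map_mul]; simp

lemma ll_rr_comm (i : ι) (u w : FreeGroup ι) : ll i u * rr i w = rr i w * ll i u := by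
  show lr i (u, 1) * lr i (1, w) = lr i (1, w) * lr i (u, 1)
  rw [← map_mul, ← map_mul]; simp

lemma aut_ext {f g : MulAut (FreeGroup ι)} (h : ∀ j, f (of j) = g (of j)) : f = g := by
  have : (f : FreeGroup ι →* FreeGroup ι) = (g : FreeGroup ι →* FreeGroup ι) := by
    ext j
    exact h j
  ext x
  exact DFunLike.congr_fun this x

/-- The automorphism fixes `x_i` and preserves the complementary free factor. -/
def Pres (i : ι) (α : MulAut (FreeGroup ι)) : Prop :=
  α (of i) = of i ∧ ∀ j, j ≠ i → kil i (α (of j)) = α (of j)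

lemma Pres.kil {i : ι} {α : MulAut (FreeGroup ι)} (h : Pres i α) (x : FreeGroup ι) :
    kil i (α x) = α (kil i x) := by
  have : (Helper460_OutF.kil i).comp (α : FreeGroup ι →* FreeGroup ι) =
      (α : FreeGroup ι →* FreeGroup ι).comp (Helper460_OutF.kil i) := by
    ext k
    simp only [MonoidHom.comp_apply, MonoidHom.coe_coe]
    by_cases h1 : k = i
    · subst h1; rw [h.1]; simp
    · rw [kil_ne h1, h.2 k h1]
  exact DFunLike.congr_fun this x

lemma Pres.lr {i : ι} {α : MulAut (FreeGroup ι)} (h : Pres i α) (p : FreeGroup ι × FreeGroup ι) :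
    α * lr i p = lr i (α p.1, α p.2) * α := by
  apply aut_ext
  intro j
  rw [MulAut.mul_apply, MulAut.mul_apply]
  by_cases h1 : j = i
  · subst h1
    rw [h.1, lr_apply, lr_apply, lrH_self, lrH_self, map_mul, map_mul, map_inv, h.1]
    simp only [h.kil]
  · rw [lr_fix i p (kil_ne h1), lr_fix i _ (h.2 j h1)]

lemma Pres.rr {i : ι} {α : MulAut (FreeGroup ι)} (h : Pres i α) (w : FreeGroup ι) :
    α * rr i w * α⁻¹ = rr i (α w) := by
  rw [mul_inv_eq_iff_eq_mul]
  have := h.lr (1, w)
  simpa [Helper460_OutF.rr] using this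

lemma Pres.ll {i : ι} {α : MulAut (FreeGroup ι)} (h : Pres i α) (w : FreeGroup ι) :
    α * ll i w * α⁻¹ = ll i (α w) := by
  rw [mul_inv_eq_iff_eq_mul]
  have := h.lr (w, 1)
  simpa [Helper460_OutF.ll] using this

lemma Pres.cc {i : ι} {α : MulAut (FreeGroup ι)} (h : Pres i α) (w : FreeGroup ι) :
    α * cc i w * α⁻¹ = cc i (α w) := by
  rw [mul_inv_eq_iff_eq_mul]
  have := h.lr (w, w)
  simpa [Helper460_OutF.cc] using this

lemma pres_lr {i p : ι} (hip : i ≠ p) {q : FreeGroup ι × FreeGroup ι}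
    (h1 : kil i q.1 = q.1) (h2 : kil i q.2 = q.2) : Pres i (lr p q) := by
  refine ⟨lr_fix p q (kil_ne hip), fun j hj => ?_⟩
  by_cases h : j = p
  · subst h
    rw [lr_apply, lrH_self, map_mul, map_mul, map_inv, kil_comm i, kil_comm i, h1, h2, kil_ne hj]
  · rw [lr_fix p q (kil_ne h), kil_ne hj]

lemma pres_rr {i p : ι} (hip : i ≠ p) {w : FreeGroup ι} (h : kil i w = w) : Pres i (rr p w) :=
  pres_lr hip (q := (1, w)) (map_one _) h

lemma pres_ll {i p : ι} (hip : i ≠ p) {w : FreeGroup ι} (h : kil i w = w) : Pres i (ll p w) :=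
  pres_lr hip (q := (w, 1)) h (map_one _)

lemma pres_cc {i p : ι} (hip : i ≠ p) {w : FreeGroup ι} (h : kil i w = w) : Pres i (cc p w) :=
  pres_lr hip (q := (w, w)) h h

/-- `lr i u` and `lr p w` commute when `i ≠ p` and neither involves the other index. -/
lemma lr_lr_comm {i p : ι} (hip : i ≠ p) {u w : FreeGroup ι × FreeGroup ι}
    (h1 : kil p u.1 = u.1) (h2 : kil p u.2 = u.2) (h3 : kil i w.1 = w.1) (h4 : kil i w.2 = w.2) :
    lr i u * lr p w = lr p w * lr i u := by
  have := (pres_lr hip.symm h1 h2).lr w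
  rw [this]
  rw [lr_fix i u h3, lr_fix i u h4]

/-- Identity (I3). -/
lemma id3 {i p : ι} (hip : i ≠ p) {w : FreeGroup ι} (hi : kil i w = w) (hp : kil p w = w) :
    rr p (of i) * rr i w = rr i w * rr p (of i * w⁻¹ * (of i)⁻¹) * rr p (of i) := by
  apply aut_ext
  intro j
  simp only [MulAut.mul_apply]
  by_cases h1 : j = p
  · subst h1
    rw [rr_ne hip.symm, rr_self, kil_ne hip, map_mul, rr_self, rr_ne hip]
    simp only [map_mul, map_inv, hp, kil_ne hip, rr_ne hip.symm, rr_self, rr_fix i w hi, hi]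
    group
  · by_cases h2 : j = i
    · subst h2
      rw [rr_self, hi, rr_ne hip, rr_ne hip, rr_self, hi, map_mul, rr_ne hip, rr_fix p _ hp]
    · rw [rr_ne h1, rr_ne h1, rr_ne h2, rr_ne h1]

/-- Identity (I4). -/
lemma id4 {i p : ι} (hip : i ≠ p) {w : FreeGroup ι} (hi : kil i w = w) (hp : kil p w = w) :
    rr p (of i) * cc i w = cc i w * rr p (w * of i * w⁻¹ * (of i)⁻¹) * rr p (of i) := by
  apply aut_ext
  intro j
  simp only [MulAut.mul_apply]
  by_cases h1 : j = p
  · subst h1
    rw [cc_ne hip.symm, rr_self, kil_ne hip, map_mul, rr_self, rr_ne hip]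
    simp only [map_mul, map_inv, hp, kil_ne hip, cc_ne hip.symm, cc_self, cc_fix i w hi, hi]
    group
  · by_cases h2 : j = i
    · subst h2
      rw [cc_self, hi, rr_ne hip, rr_ne hip, cc_self, hi]
      exact rr_fix p _ (by rw [map_mul, map_mul, map_inv, hp, kil_ne hip])
    · rw [rr_ne h1, rr_ne h1, cc_ne h2, rr_ne h1]

/-- Identity (I5). -/
lemma id5 {i p : ι} (hip : i ≠ p) :
    rr p (of i) * cc i (of p) = cc p (of i) * cc i (of p) * rr p (of i) := by
  apply aut_ext
  intro j
  simp only [MulAut.mul_apply]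
  by_cases h1 : j = p
  · subst h1
    simp only [cc_ne hip.symm, rr_self, kil_ne hip, map_mul, cc_self, kil_ne hip.symm, map_inv,
      cc_ne hip]
    group
  · by_cases h2 : j = i
    · subst h2
      simp only [cc_self, kil_ne hip.symm, kil_ne hip, map_mul, map_inv, rr_self, rr_ne hip,
        cc_ne hip]
      group
    · rw [rr_ne h1, cc_ne h2, rr_ne h1, cc_ne h1]

end Pool.Agent.Helper460_OutF
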