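import Pool.Agent.H12.CSP.A.Helper460_OutF.Basic

set_option autoImplicit false
set_option linter.unusedSectionVars false
set_option linter.unusedSimpArgs false

namespace Pool.Agent.Helper460_OutF

open FreeGroup (of)
open scoped commutatorElement

variable {ι : Type} [DecidableEq ι]

lemma commute_of_gen {H : Type*} [Group H] (f : FreeGroup ι →* H)
    (h : ∀ j k, Commute (f (of j)) (f (of k))) (u v : FreeGroup ι) : Commute (f u) (f v) := by
  have h1 : ∀ j v, Commute (f (of j)) (f v) := by
    intro j v
    induction v using FreeGroup.induction_on with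
    | C1 => rw [map_one]; exact Commute.one_right _
    | of k => exact h j k
    | inv_of k ih => rw [map_inv]; exact ih.inv_right
    | mul a b ha hb => rw [map_mul]; exact ha.mul_right hb
  induction u using FreeGroup.induction_on with
  | C1 => rw [map_one]; exact Commute.one_left _
  | of k => exact h1 k v
  | inv_of k ih => rw [map_inv]; exact ih.inv_left
  | mul a b ha hb => rw [map_mul]; exact ha.mul_left hb

lemma rr_of_self (i : ι) : rr i (of i) = 1 := by
  apply aut_ext
  intro j
  by_cases h : j = i
  · subst h; simp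
  · simp [h]

lemma ll_of_self (i : ι) : ll i (of i) = 1 := by
  apply aut_ext
  intro j
  by_cases h : j = i
  · subst h; simp
  · simp [h]

lemma cc_of_self (i : ι) : cc i (of i) = 1 := by
  rw [cc_eq, rr_of_self, ll_of_self, mul_one]

lemma kil_comm_of {i a b : ι} (ha : a ≠ i) (hb : b ≠ i) : kil i ⁅of a, of b⁆ = ⁅of a, of b⁆ := by
  rw [commutatorElement_def, map_mul, map_mul, map_mul, map_inv, map_inv, kil_ne ha, kil_ne hb]

/-- The product of the partial conjugations by `g` over a list of indices. -/
lemma prod_cc (g : FreeGroup ι) (l : List ι) (hl : l.Nodup) (hg : ∀ m ∈ l, kil m g = g) (j : ι) :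
    (l.map (fun m => cc m g)).prod (of j) = if j ∈ l then g⁻¹ * of j * g else of j := by
  induction l with
  | nil => simp
  | cons m l ih =>
    rw [List.map_cons, List.prod_cons, MulAut.mul_apply,
      ih (List.nodup_cons.1 hl).2 (fun m' hm' => hg m' (List.mem_cons_of_mem _ hm'))]
    have hm : m ∉ l := (List.nodup_cons.1 hl).1
    have hgm : kil m g = g := hg m List.mem_cons_self
    by_cases h1 : j ∈ l
    · have h2 : j ≠ m := fun h => hm (h ▸ h1)
      rw [if_pos h1, if_pos (List.mem_cons_of_mem _ h1), map_mul, map_mul, map_inv,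
        cc_fix m g hgm, cc_ne h2]
    · by_cases h2 : j = m
      · subst h2
        rw [if_neg h1, cc_self, hgm, if_pos List.mem_cons_self]
      · rw [if_neg h1, cc_ne h2, if_neg]
        simp [h1, h2]

/-- The type B identity. -/
lemma idB {i j : ι} (hij : i ≠ j) (l : List ι) (hl : l.Nodup) (hm : ∀ m, m ∈ l ↔ m ≠ i ∧ m ≠ j)
    (g : FreeGroup ι) (hg0 : g = (of j)⁻¹ * (of i)⁻¹ * of j * of i) :
    cc i (of j) * cc j (of i) =
      MulAut.conj g * (l.map (fun m => cc m g)).prod * (cc j (of i) * cc i (of j)) := by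
  have hg : ∀ m ∈ l, kil m g = g := by
    intro m hml
    have := (hm m).1 hml
    rw [hg0]
    simp only [map_mul, map_inv, kil_ne this.1.symm, kil_ne this.2.symm]
  have hP := prod_cc g l hl hg
  have hPi : (l.map (fun m => cc m g)).prod (of i) = of i := by
    rw [hP, if_neg]
    intro h; exact ((hm i).1 h).1 rfl
  have hPj : (l.map (fun m => cc m g)).prod (of j) = of j := by
    rw [hP, if_neg]
    intro h; exact ((hm j).1 h).2 rfl
  have hPk : ∀ k, k ≠ i → k ≠ j →
      (l.map (fun m => cc m g)).prod (of k) = g⁻¹ * of k * g := by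
    intro k h1 h2
    rw [hP, if_pos ((hm k).2 ⟨h1, h2⟩)]
  generalize (l.map (fun m => cc m g)).prod = P at *
  apply aut_ext
  intro k
  simp only [MulAut.mul_apply]
  by_cases h1 : k = i
  · subst h1
    simp only [cc_self, cc_ne hij, kil_ne hij, kil_ne hij.symm, map_mul, map_inv, cc_ne hij.symm,
      hPi, hPj, MulAut.conj_apply]
    rw [hg0]
    group
  · by_cases h2 : k = j
    · subst h2
      simp only [cc_self, cc_ne hij, kil_ne hij, kil_ne hij.symm, map_mul, map_inv,
        cc_ne hij.symm, hPi, hPj, MulAut.conj_apply]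
      rw [hg0]
      group
    · rw [cc_ne h2, cc_ne h1, cc_ne h2, hPk k h1 h2]
      simp only [MulAut.conj_apply]
      group

/-- A homomorphism killing inner automorphisms and the partial conjugations by basic
commutators. -/
structure Kills {G : Type} [Group G] (q : MulAut (FreeGroup ι) →* G) : Prop where
  inn : ∀ g, q (MulAut.conj g) = 1
  cck : ∀ i j k, i ≠ j → i ≠ k → q (cc i ⁅of j, of k⁆) = 1

section

variable {G : Type} [Group G] (q : MulAut (FreeGroup ι) →* G)

/-- The image of the transvection by a commutator. -/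
def tt (i : ι) (u v : FreeGroup ι) : G := q (rr i ⁅u, v⁆)

variable {q}

lemma conj_cc {i : ι} {α : MulAut (FreeGroup ι)} (hα : Pres i α) (w : FreeGroup ι) :
    q α * q (cc i w) * (q α)⁻¹ = q (cc i (α w)) := by
  rw [← map_inv, ← map_mul, ← map_mul, hα.cc]

lemma conj_rr {i : ι} {α : MulAut (FreeGroup ι)} (hα : Pres i α) (w : FreeGroup ι) :
    q α * q (rr i w) * (q α)⁻¹ = q (rr i (α w)) := by
  rw [← map_inv, ← map_mul, ← map_mul, hα.rr]

lemma conj_ll {i : ι} {α : MulAut (FreeGroup ι)} (hα : Pres i α) (w : FreeGroup ι) :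
    q α * q (ll i w) * (q α)⁻¹ = q (ll i (α w)) := by
  rw [← map_inv, ← map_mul, ← map_mul, hα.ll]

lemma conj_tt {i : ι} {α : MulAut (FreeGroup ι)} (hα : Pres i α) (u v : FreeGroup ι) :
    q α * tt q i u v * (q α)⁻¹ = tt q i (α u) (α v) := by
  unfold tt
  rw [conj_rr hα, map_commutatorElement]

lemma commute_of_conj {a b : G} (h : a * b * a⁻¹ = b) : Commute a b :=
  mul_inv_eq_iff_eq_mul.1 h

lemma ll_rr_commute (i : ι) (u w : FreeGroup ι) : Commute (q (ll i u)) (q (rr i w)) := by
  show q (ll i u) * q (rr i w) = q (rr i w) * q (ll i u)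
  rw [← map_mul, ll_rr_comm, map_mul]

namespace Kills

variable (h : Kills q)

include h

lemma ccc (i : ι) (u v : FreeGroup ι) : Commute (q (cc i u)) (q (cc i v)) := by
  refine commute_of_gen (q.comp (cc i)) (fun j k => ?_) u v
  simp only [MonoidHom.comp_apply]
  by_cases h1 : i = j
  · subst h1; rw [cc_of_self, map_one]; exact Commute.one_left _
  by_cases h2 : i = k
  · subst h2; rw [cc_of_self, map_one]; exact Commute.one_right _
  have := h.cck i j k h1 h2
  rw [map_commutatorElement, map_commutatorElement, commutatorElement_eq_one_iff_commute] at this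
  exact this

lemma cc_comm (i : ι) (u v : FreeGroup ι) : q (cc i ⁅u, v⁆) = 1 := by
  rw [map_commutatorElement, map_commutatorElement, commutatorElement_eq_one_iff_commute]
  exact h.ccc i u v

lemma rr_eq (i : ι) (u v : FreeGroup ι) : q (rr i ⁅u, v⁆) = (q (ll i ⁅u, v⁆))⁻¹ := by
  have := h.cc_comm i u v
  rw [cc_eq, map_mul] at this
  exact (inv_eq_of_mul_eq_one_right this).symm

lemma tt_rr (i : ι) (u v w : FreeGroup ι) : Commute (tt q i u v) (q (rr i w)) := by
  unfold tt
  rw [h.rr_eq]
  exact (ll_rr_commute i _ _).inv_left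

lemma tt_ll (i : ι) (u v w : FreeGroup ι) : Commute (tt q i u v) (q (ll i w)) :=
  (ll_rr_commute i _ _).symm

lemma tt_cc (i : ι) (u v w : FreeGroup ι) : Commute (tt q i u v) (q (cc i w)) := by
  rw [cc_eq, map_mul]
  exact (h.tt_ll i u v w).mul_right (h.tt_rr i u v w)

lemma tt_mul_left (i : ι) (u u' v : FreeGroup ι) :
    tt q i (u * u') v = tt q i u v * tt q i u' v := by
  have e : ⁅u * u', v⁆ = u * ⁅u', v⁆ * u⁻¹ * ⁅u, v⁆ := by
    simp only [commutatorElement_def]; group
  have c := h.tt_rr i u' v u
  have c2 := h.tt_rr i u v ⁅u', v⁆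
  unfold tt at *
  rw [e, map_mul, map_mul, map_mul, map_mul, map_mul, map_mul, map_inv, map_inv, ← c.eq,
    mul_assoc (q (rr i ⁅u', v⁆)), mul_inv_cancel, mul_one, c2.eq]

lemma tt_swap (i : ι) (u v : FreeGroup ι) : tt q i v u = (tt q i u v)⁻¹ := by
  unfold tt
  rw [← map_inv, ← map_inv, commutatorElement_inv]

lemma tt_mul_right (i : ι) (u v v' : FreeGroup ι) :
    tt q i u (v * v') = tt q i u v * tt q i u v' := by
  rw [h.tt_swap i (v * v') u, h.tt_mul_left, mul_inv_rev, ← h.tt_swap i v' u, ← h.tt_swap i v u]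
  exact (h.tt_rr i _ _ _).eq

lemma tt_one_left (i : ι) (v : FreeGroup ι) : tt q i 1 v = 1 := by
  unfold tt; rw [commutatorElement_one_left, map_one, map_one]

lemma tt_inv_left (i : ι) (u v : FreeGroup ι) : tt q i u⁻¹ v = (tt q i u v)⁻¹ := by
  rw [eq_inv_iff_mul_eq_one, ← h.tt_mul_left, inv_mul_cancel, h.tt_one_left]

lemma tt_inv_right (i : ι) (u v : FreeGroup ι) : tt q i u v⁻¹ = (tt q i u v)⁻¹ := by
  rw [h.tt_swap i v⁻¹ u, h.tt_inv_left, inv_inv, h.tt_swap i u v]

lemma tt_comm (i : ι) (u v u' v' : FreeGroup ι) : Commute (tt q i u v) (tt q i u' v') :=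
  h.tt_rr i u v _

lemma tt_conj (i : ι) (u x v : FreeGroup ι) : tt q i (x⁻¹ * u * x) v = tt q i u v := by
  rw [h.tt_mul_left, h.tt_mul_left, h.tt_inv_left, (h.tt_comm i x v u v).inv_left.eq,
    inv_mul_cancel_right]

lemma tt_commut (i : ι) (a b v : FreeGroup ι) : tt q i ⁅a, b⁆ v = 1 := by
  unfold tt
  rw [map_commutatorElement, map_commutatorElement, commutatorElement_eq_one_iff_commute]
  exact h.tt_rr i a b v

lemma tt_self (i : ι) (v : FreeGroup ι) : tt q i (of i) v = 1 := by
  unfold tt
  rw [map_commutatorElement, map_commutatorElement, rr_of_self, map_one,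
    commutatorElement_one_left]

lemma tt_self' (i : ι) (v : FreeGroup ι) : tt q i v (of i) = 1 := by
  rw [h.tt_swap i (of i) v, h.tt_self, inv_one]

lemma tt_same (i : ι) (v : FreeGroup ι) : tt q i v v = 1 := by
  unfold tt
  rw [commutatorElement_self, map_one, map_one]

variable [Fintype ι]

lemma cB {i j : ι} (hij : i ≠ j) : Commute (q (cc i (of j))) (q (cc j (of i))) := by
  let l : List ι := ((Finset.univ.erase i).erase j).toList
  have hl : l.Nodup := Finset.nodup_toList _
  have hm : ∀ m, m ∈ l ↔ m ≠ i ∧ m ≠ j := by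
    intro m
    simp only [l, Finset.mem_toList, Finset.mem_erase, Finset.mem_univ, and_true]
    exact and_comm
  have key := idB hij l hl hm _ rfl
  have := congrArg q key
  rw [map_mul, map_mul, map_mul, h.inn, one_mul, map_list_prod, List.map_map] at this
  have h1 : ∀ x ∈ List.map (⇑q ∘ fun m => cc m ((of j)⁻¹ * (of i)⁻¹ * of j * of i)) l,
      x = 1 := by
    intro x hx
    rw [List.mem_map] at hx
    obtain ⟨m, -, rfl⟩ := hx
    have := h.cc_comm m (of j)⁻¹ (of i)⁻¹
    simpa [commutatorElement_def] using this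
  rw [List.prod_eq_one h1, one_mul, map_mul] at this
  exact this

lemma cc_cc (i j p l : ι) : Commute (q (cc i (of j))) (q (cc p (of l))) := by
  by_cases h1 : j = i
  · subst h1; rw [cc_of_self, map_one]; exact Commute.one_left _
  by_cases h2 : l = p
  · subst h2; rw [cc_of_self, map_one]; exact Commute.one_right _
  by_cases h3 : i = p
  · subst h3; exact h.ccc i _ _
  by_cases h4 : j = p
  · subst h4
    by_cases h5 : l = i
    · subst h5; exact h.cB h3
    · -- conjugate by `cc p (of l)`
      refine (commute_of_conj ?_).symm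
      rw [conj_cc (pres_cc h3 (kil_ne h5)), cc_self, kil_ne h2]
      simp only [map_mul, map_inv]
      rw [(h.ccc i (of l) (of j)).inv_left.eq, inv_mul_cancel_right]
  · by_cases h5 : l = i
    · subst h5
      apply commute_of_conj
      rw [conj_cc (pres_cc (Ne.symm h3) (kil_ne h4)), cc_self, kil_ne h1]
      simp only [map_mul, map_inv]
      rw [(h.ccc p (of j) (of l)).inv_left.eq, inv_mul_cancel_right]
    · apply commute_of_conj
      rw [conj_cc (pres_cc (Ne.symm h3) (kil_ne h4)), cc_ne h5]

lemma cc_tt (i j p a b : ι) : Commute (q (cc i (of j))) (tt q p (of a) (of b)) := by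
  by_cases h1 : j = i
  · subst h1; rw [cc_of_self, map_one]; exact Commute.one_left _
  by_cases h3 : p = i
  · subst h3; exact (h.tt_cc p _ _ _).symm
  by_cases ha : a = p
  · subst ha; rw [h.tt_self]; exact Commute.one_right _
  by_cases hb : b = p
  · subst hb; rw [h.tt_self']; exact Commute.one_right _
  by_cases h4 : j = p
  · subst h4
    have typeA : ∀ b, b ≠ j → b ≠ i → Commute (q (cc i (of j))) (tt q j (of i) (of b)) := by
      intro b hb hbi
      have e1 : q (rr j (of b)) * q (cc j (of i)) * (q (rr j (of b)))⁻¹ =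
          q (cc j (of i)) * tt q j (of i)⁻¹ (of b) := by
        have : rr j (of b) * cc j (of i) * (rr j (of b))⁻¹ =
            cc j (of i) * rr j ⁅(of i)⁻¹, of b⁆ := by
          rw [cc_eq, ← mul_assoc, ← ll_rr_comm, commutatorElement_def, map_mul, map_mul,
            map_mul, inv_inv, map_inv, map_inv]
          group
        rw [← map_inv, ← map_mul, ← map_mul, this, map_mul]
        rfl
      have e2 : q (rr j (of b)) * q (cc i (of j)) * (q (rr j (of b)))⁻¹ =
          q (cc i (of j)) * q (cc i (of b)) := by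
        rw [conj_cc (pres_rr (Ne.symm h1) (kil_ne hbi)), rr_self, kil_ne hb, map_mul, map_mul]
      have c0 : Commute (q (cc j (of i)) * tt q j (of i)⁻¹ (of b))
          (q (cc i (of j)) * q (cc i (of b))) := by
        rw [← e1, ← e2]
        have := h.cc_cc j i i j
        show _ = _
        have := this.eq
        calc _ = q (rr j (of b)) * (q (cc j (of i)) * q (cc i (of j))) * (q (rr j (of b)))⁻¹ := by
              group
          _ = _ := by rw [this]; group
      have c1 : Commute (q (cc j (of i))) (q (cc i (of j)) * q (cc i (of b))) :=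
        (h.cc_cc j i i j).mul_right (h.cc_cc j i i b)
      have c2 : Commute (tt q j (of i)⁻¹ (of b)) (q (cc i (of j)) * q (cc i (of b))) := by
        have := c1.inv_left.mul_left c0
        rwa [inv_mul_cancel_left] at this
      have c3 : Commute (tt q j (of i)⁻¹ (of b)) (q (cc i (of b))) := by
        rw [h.tt_inv_left]
        refine (Commute.inv_right ?_).symm
        apply commute_of_conj
        rw [conj_tt (pres_cc (Ne.symm h3).symm (kil_ne hb)), cc_self, kil_ne hbi, cc_ne hbi,
          h.tt_conj]
      have c4 : Commute (tt q j (of i)⁻¹ (of b)) (q (cc i (of j))) := by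
        have := c2.mul_right c3.inv_right
        rwa [mul_inv_cancel_right] at this
      rw [h.tt_inv_left] at c4
      simpa using c4.inv_left.symm
    by_cases hai : a = i
    · subst hai
      by_cases hbi : b = a
      · subst hbi; rw [h.tt_same]; exact Commute.one_right _
      · exact typeA b hb hbi
    · by_cases hbi : b = i
      · subst hbi
        rw [h.tt_swap j (of b) (of a)]
        exact (typeA a ha hai).inv_right
      · -- conjugate by `rr j ⁅of a, of b⁆`
        refine (commute_of_conj ?_).symm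
        have hk : kil i ⁅of a, of b⁆ = ⁅of a, of b⁆ := kil_comm_of hai hbi
        have hk2 : kil j ⁅of a, of b⁆ = ⁅of a, of b⁆ := kil_comm_of ha hb
        show q (rr j ⁅of a, of b⁆) * q (cc i (of j)) * (q (rr j ⁅of a, of b⁆))⁻¹ = _
        rw [conj_cc (pres_rr (Ne.symm h1) hk), rr_self, hk2, map_mul, map_mul, h.cc_comm, mul_one]
  · apply commute_of_conj
    rw [conj_tt (pres_cc h3 (kil_ne h4))]
    have hx : ∀ x v : FreeGroup ι, ∀ c : ι, tt q p (cc i (of j) (of c)) v = tt q p (of c) v := by
      intro x v c
      by_cases hc : c = i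
      · subst hc; rw [cc_self, kil_ne h1, h.tt_conj]
      · rw [cc_ne hc]
    rw [hx 1, h.tt_swap p (cc i (of j) (of b)) (of a), hx 1, ← h.tt_swap]

lemma tt_tt (i j k p a b : ι) : Commute (tt q i (of j) (of k)) (tt q p (of a) (of b)) := by
  by_cases hj : j = i
  · subst hj; rw [h.tt_self]; exact Commute.one_left _
  by_cases hk : k = i
  · subst hk; rw [h.tt_self']; exact Commute.one_left _
  by_cases ha : a = p
  · subst ha; rw [h.tt_self]; exact Commute.one_right _
  by_cases hb : b = p
  · subst hb; rw [h.tt_self']; exact Commute.one_right _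
  by_cases h1 : i = p
  · subst h1; exact h.tt_comm i _ _ _ _
  -- the easy case
  have easy : ∀ i j k p a b : ι, a ≠ p → b ≠ p → i ≠ p → a ≠ i → b ≠ i →
      Commute (tt q i (of j) (of k)) (tt q p (of a) (of b)) := by
    intro i j k p a b ha hb h1 hai hbi
    refine (commute_of_conj ?_).symm
    have hk : kil i ⁅of a, of b⁆ = ⁅of a, of b⁆ := kil_comm_of hai hbi
    have hk2 : kil p ⁅of a, of b⁆ = ⁅of a, of b⁆ := kil_comm_of ha hb
    show q (rr p ⁅of a, of b⁆) * tt q i (of j) (of k) * (q (rr p ⁅of a, of b⁆))⁻¹ = _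
    rw [conj_tt (pres_rr h1 hk)]
    have hx : ∀ x v : FreeGroup ι, ∀ c : ι,
        tt q i (rr p ⁅of a, of b⁆ (of c)) v = tt q i (of c) v := by
      intro x v c
      by_cases hc : c = p
      · subst hc; rw [rr_self, hk2, h.tt_mul_left, h.tt_commut, mul_one]
      · rw [rr_ne hc]
    rw [hx 1, h.tt_swap i (rr p ⁅of a, of b⁆ (of k)) (of j), hx 1, ← h.tt_swap]
  by_cases hab : a ≠ i ∧ b ≠ i
  · exact easy i j k p a b ha hb h1 hab.1 hab.2
  by_cases hjk : j ≠ p ∧ k ≠ p
  · exact (easy p a b i j k hj hk (Ne.symm h1) hjk.1 hjk.2).symm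
  -- type C
  have typeC : ∀ k a : ι, k ≠ i → k ≠ p → a ≠ i → a ≠ p →
      Commute (tt q i (of k) (of p)) (tt q p (of i) (of a)) := by
    intro k a hki hkp hai hap
    have cA : Commute (tt q i (of k) (of p)) (q (cc p (of i))) := (h.cc_tt p i i k p).symm
    have e1 : q (rr p (of a)) * tt q i (of k) (of p) * (q (rr p (of a)))⁻¹ =
        tt q i (of k) (of p) * tt q i (of k) (of a) := by
      rw [conj_tt (pres_rr h1 (kil_ne hai)), rr_ne hkp, rr_self, kil_ne hap, h.tt_mul_right]
    have e2 : q (rr p (of a)) * q (cc p (of i)) * (q (rr p (of a)))⁻¹ =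
        q (cc p (of i)) * tt q p (of i)⁻¹ (of a) := by
      have : rr p (of a) * cc p (of i) * (rr p (of a))⁻¹ =
          cc p (of i) * rr p ⁅(of i)⁻¹, of a⁆ := by
        rw [cc_eq, ← mul_assoc, ← ll_rr_comm, commutatorElement_def, map_mul, map_mul,
          map_mul, inv_inv, map_inv, map_inv]
        group
      rw [← map_inv, ← map_mul, ← map_mul, this, map_mul]
      rfl
    have c0 : Commute (tt q i (of k) (of p) * tt q i (of k) (of a))
        (q (cc p (of i)) * tt q p (of i)⁻¹ (of a)) := by
      rw [← e1, ← e2]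
      show _ = _
      calc _ = q (rr p (of a)) * (tt q i (of k) (of p) * q (cc p (of i))) *
            (q (rr p (of a)))⁻¹ := by group
        _ = _ := by rw [cA.eq]; group
    have c1 : Commute (tt q i (of k) (of p) * tt q i (of k) (of a)) (q (cc p (of i))) :=
      cA.mul_left (h.cc_tt p i i k a).symm
    have c2 : Commute (tt q i (of k) (of p) * tt q i (of k) (of a)) (tt q p (of i)⁻¹ (of a)) := by
      have := c1.inv_right.mul_right c0
      rwa [inv_mul_cancel_left] at this
    have c3 : Commute (tt q i (of k) (of a)) (tt q p (of i)⁻¹ (of a)) := by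
      rw [h.tt_inv_left]
      exact ((easy p i a i k a hki hai (Ne.symm h1) hkp hap).symm).inv_right
    have c4 : Commute (tt q i (of k) (of p)) (tt q p (of i)⁻¹ (of a)) := by
      have := c2.mul_left c3.inv_left
      rwa [mul_inv_cancel_right] at this
    rw [h.tt_inv_left] at c4
    simpa using c4.inv_right
  -- reduce to type C by symmetry
  have red2 : ∀ k : ι, k ≠ i → k ≠ p → Commute (tt q i (of k) (of p)) (tt q p (of a) (of b)) := by
    intro k hki hkp
    by_cases hai : a = i
    · subst hai
      by_cases hbi : b = a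
      · subst hbi; rw [h.tt_same]; exact Commute.one_right _
      · exact typeC k b hki hkp hbi hb
    · have hbi : b = i := by
        by_contra hcon
        exact hab ⟨hai, hcon⟩
      subst hbi
      rw [h.tt_swap p (of b) (of a)]
      exact (typeC k a hki hkp hai ha).inv_right
  by_cases hkp : k = p
  · subst hkp
    by_cases hjk2 : j = k
    · subst hjk2; rw [h.tt_same]; exact Commute.one_left _
    · exact red2 j hj hjk2
  · have hjp : j = p := by
      by_contra hcon
      exact hjk ⟨hcon, hkp⟩
    subst hjp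
    rw [h.tt_swap i (of k) (of j)]
    exact (red2 k hk hkp).inv_left

end Kills

end

end Pool.Agent.Helper460_OutF
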