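import Mathlib

set_option autoImplicit false
set_option linter.unusedSectionVars false
set_option linter.unusedSimpArgs false

namespace Pool.Agent.Helper460_OutF

open Module Module.End
open scoped commutatorElement

section cube

variable {K V : Type} [Field K] [IsAlgClosed K] [AddCommGroup V] [Module K V]
  [FiniteDimensional K V]

/-- The submodule is invariant under the unit and its inverse. -/
def InvU (W : Submodule K V) (f : (End K V)ˣ) : Prop :=
  (∀ x ∈ W, (f : End K V) x ∈ W) ∧ ∀ x ∈ W, ((f⁻¹ : (End K V)ˣ) : End K V) x ∈ W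

lemma InvU.inv {W : Submodule K V} {f : (End K V)ˣ} (h : InvU W f) : InvU W f⁻¹ :=
  ⟨h.2, by rw [inv_inv]; exact h.1⟩

lemma InvU.mul {W : Submodule K V} {f g : (End K V)ˣ} (hf : InvU W f) (hg : InvU W g) :
    InvU W (f * g) := by
  refine ⟨fun x hx => ?_, fun x hx => ?_⟩
  · rw [Units.val_mul, Module.End.mul_apply]
    exact hf.1 _ (hg.1 _ hx)
  · rw [mul_inv_rev, Units.val_mul, Module.End.mul_apply]
    exact hg.2 _ (hf.2 _ hx)

lemma InvU.inf {W W' : Submodule K V} {f : (End K V)ˣ} (h : InvU W f) (h' : InvU W' f) :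
    InvU (W ⊓ W') f :=
  ⟨fun x hx => ⟨h.1 x hx.1, h'.1 x hx.2⟩, fun x hx => ⟨h.2 x hx.1, h'.2 x hx.2⟩⟩

lemma invU_gen {f g : (End K V)ˣ} (h : f * g = g * f) (μ : K) :
    InvU ((f : End K V).maxGenEigenspace μ) g := by
  have h1 : Commute (f : End K V) (g : End K V) := by
    show (f : End K V) * (g : End K V) = (g : End K V) * (f : End K V)
    rw [← Units.val_mul, h, Units.val_mul]
  have h2 : Commute (f : End K V) ((g⁻¹ : (End K V)ˣ) : End K V) := h1.units_inv_right
  exact ⟨fun x hx => mapsTo_maxGenEigenspace_of_comm h1 μ hx,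
    fun x hx => mapsTo_maxGenEigenspace_of_comm h2 μ hx⟩

lemma exists_eig {W : Submodule K V} (hW : W ≠ ⊥) (f : End K V) (hf : ∀ x ∈ W, f x ∈ W) :
    ∃ y ∈ W, y ≠ 0 ∧ ∃ μ : K, f y = μ • y := by
  have hnt : Nontrivial W := Submodule.nontrivial_iff_ne_bot.2 hW
  obtain ⟨μ, hμ⟩ := Module.End.exists_eigenvalue (f.restrict hf)
  obtain ⟨y, hy⟩ := hμ.exists_hasEigenvector
  refine ⟨y, y.2, ?_, μ, ?_⟩
  · intro h0
    exact hy.2 (Subtype.ext h0)
  · have := hy.apply_eq_smul
    exact congrArg Subtype.val this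

lemma eig_of_mem_gen {f : End K V} {μ ν : K} {y : V} (hy0 : y ≠ 0) (hy : f y = ν • y)
    (hm : y ∈ f.maxGenEigenspace μ) : ν = μ := by
  rw [mem_maxGenEigenspace] at hm
  obtain ⟨k, hk⟩ := hm
  have h1 : ∀ k : ℕ, ((f - μ • (1 : End K V)) ^ k) y = (ν - μ) ^ k • y := by
    intro k
    induction k with
    | zero => simp
    | succ k ih =>
      rw [pow_succ', Module.End.mul_apply, ih, map_smul]
      have : (f - μ • (1 : End K V)) y = (ν - μ) • y := by
        rw [LinearMap.sub_apply, hy, LinearMap.smul_apply, Module.End.one_apply, sub_smul]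
      rw [this, smul_smul, pow_succ]
  rw [h1] at hk
  rcases smul_eq_zero.1 hk with h | h
  · by_contra hne
    exact pow_ne_zero k (sub_ne_zero.2 hne) h
  · exact absurd h hy0

lemma gen_intertwine {f h g : End K V} (hg : f * g = g * h) (μ : K) {x : V}
    (hx : x ∈ h.maxGenEigenspace μ) : g x ∈ f.maxGenEigenspace μ := by
  rw [mem_maxGenEigenspace] at hx ⊢
  obtain ⟨k, hk⟩ := hx
  refine ⟨k, ?_⟩
  have h1 : ∀ k : ℕ, (f - μ • (1 : End K V)) ^ k * g = g * (h - μ • (1 : End K V)) ^ k := by
    intro k
    induction k with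
    | zero => simp
    | succ k ih =>
      rw [pow_succ, mul_assoc]
      have : (f - μ • (1 : End K V)) * g = g * (h - μ • (1 : End K V)) := by
        rw [sub_mul, mul_sub, hg, smul_mul_assoc, mul_smul_comm, one_mul, mul_one]
      rw [this, ← mul_assoc, ih, mul_assoc, pow_succ]
  have := congrArg (fun T : End K V => T x) (h1 k)
  simp only [Module.End.mul_apply] at this
  rw [this, hk, map_zero]

/-- **The cube lemma.** -/
theorem cube {ι : Type} [DecidableEq ι] (a b : (End K V)ˣ) (u v : ι → (End K V)ˣ)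
    (hau : ∀ c, a * u c = u c * a) (hbu : ∀ c, b * u c = u c * b)
    (huv : ∀ c d, c ≠ d → u c * v d = v d * u c) (huu : ∀ c d, u c * u d = u d * u c)
    (hz : ∀ c, (v c)⁻¹ * u c * v c = ⁅a, b⁆ * u c) (J : Finset ι) :
    ∀ (W : Submodule K V), InvU W a → InvU W b → (∀ c ∈ J, InvU W (u c)) →
      (∀ c ∈ J, InvU W (v c)) →
      (∃ x ∈ W, x ≠ 0 ∧ ∃ ζ : K, ζ ≠ 1 ∧ ((⁅a, b⁆ : (End K V)ˣ) : End K V) x = ζ • x) →
      2 ^ (J.card + 1) ≤ finrank K W := by
  induction J using Finset.induction_on with
  | empty =>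
    rintro W ha hb - - ⟨x, hx, hx0, ζ, hζ, hZ⟩
    rw [Finset.card_empty, zero_add, pow_one]
    by_contra hlt
    have hpos : 0 < finrank K W := by
      rw [Module.finrank_pos_iff_exists_ne_zero]
      exact ⟨⟨x, hx⟩, fun h => hx0 (congrArg Subtype.val h)⟩
    have h1 : finrank K W = 1 := by omega
    have hx' : (⟨x, hx⟩ : W) ≠ 0 := fun h => hx0 (congrArg Subtype.val h)
    have hspan : ∀ y ∈ W, ∃ c : K, y = c • x := by
      intro y hy
      obtain ⟨c, hc⟩ := (finrank_eq_one_iff_of_nonzero' _ hx').1 h1 ⟨y, hy⟩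
      exact ⟨c, (congrArg Subtype.val hc).symm⟩
    obtain ⟨α, hα⟩ := hspan _ (ha.1 x hx)
    obtain ⟨β, hβ⟩ := hspan _ (hb.1 x hx)
    have hba : (b : End K V) ((a : End K V) x) = (α * β) • x := by
      rw [hα, map_smul, hβ, smul_smul]
    have hab : (a : End K V) ((b : End K V) x) = (α * β) • x := by
      rw [hβ, map_smul, hα, smul_smul, mul_comm]
    have hne : (b : End K V) ((a : End K V) x) ≠ 0 := by
      intro h0
      apply hx0
      have e : ((a⁻¹ * b⁻¹ : (End K V)ˣ) : End K V) ((b : End K V) ((a : End K V) x)) = x := by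
        rw [← Module.End.mul_apply, ← Module.End.mul_apply, ← Units.val_mul, ← Units.val_mul]
        have : a⁻¹ * b⁻¹ * b * a = 1 := by group
        rw [this]; rfl
      rw [← e, h0, map_zero]
    have hαβ : α * β ≠ 0 := by
      intro h0
      rw [hba, h0, zero_smul] at hne
      exact hne rfl
    have e1 : ((⁅a, b⁆ : (End K V)ˣ) : End K V) ((b : End K V) ((a : End K V) x)) =
        (a : End K V) ((b : End K V) x) := by
      rw [← Module.End.mul_apply, ← Module.End.mul_apply, ← Module.End.mul_apply, ← Units.val_mul,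
        ← Units.val_mul, ← Units.val_mul]
      have : ⁅a, b⁆ * b * a = a * b := by rw [commutatorElement_def]; group
      rw [this]
    rw [hba, hab, map_smul, hZ, smul_smul, mul_comm, ← smul_smul] at e1
    have e2 : ζ • ((α * β) • x) = (1 : K) • ((α * β) • x) := by rw [one_smul]; exact e1
    have e3 := smul_left_injective K (smul_ne_zero hαβ hx0) e2
    exact hζ e3
  | insert c J hc ih =>
    rintro W ha hb hu hv ⟨x, hx, hx0, ζ, hζ, hZ⟩
    set U : End K V := (u c : End K V) with hU
    set Z : (End K V)ˣ := ⁅a, b⁆ with hZdef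
    have hZu : Z * u c = u c * Z := by
      rw [hZdef, commutatorElement_def]
      have h1 : Commute a (u c) := hau c
      have h2 : Commute b (u c) := hbu c
      exact (((h1.mul_left h2).mul_left h1.inv_left).mul_left h2.inv_left).eq
    have hZW : InvU W Z := by
      rw [hZdef, commutatorElement_def]
      exact ((ha.mul hb).mul ha.inv).mul hb.inv
    have hcW : InvU W (u c) := hu c (Finset.mem_insert_self _ _)
    have hvW : InvU W (v c) := hv c (Finset.mem_insert_self _ _)
    let E : K → Submodule K V := fun μ => W ⊓ U.maxGenEigenspace μ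
    let Act : K → Prop := fun μ => ∃ y ∈ E μ, y ≠ 0 ∧ U y = μ • y ∧
      ∃ ζ : K, ζ ≠ 1 ∧ (Z : End K V) y = ζ • y
    -- existence of a common eigenvector in an invariant submodule
    have common : ∀ P : Submodule K V, P ≠ ⊥ → (∀ y ∈ P, U y ∈ P) → (∀ y ∈ P, (Z : End K V) y ∈ P) →
        ∃ y ∈ P, y ≠ 0 ∧ ∃ μ ζ : K, U y = μ • y ∧ (Z : End K V) y = ζ • y := by
      intro P hP hPU hPZ
      obtain ⟨y, hy, hy0, ζ', hζ'⟩ := exists_eig hP (Z : End K V) hPZ
      let Q : Submodule K V := P ⊓ (Z : End K V).eigenspace ζ'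
      have hQ : Q ≠ ⊥ := by
        intro h0
        have : y ∈ Q := ⟨hy, Module.End.mem_eigenspace_iff.2 hζ'⟩
        rw [h0, Submodule.mem_bot] at this
        exact hy0 this
      obtain ⟨w, hw, hw0, μ', hμ'⟩ := exists_eig hQ U (by
        rintro z ⟨hz1, hz2⟩
        refine ⟨hPU z hz1, Module.End.mem_eigenspace_iff.2 ?_⟩
        have h3 := Module.End.mem_eigenspace_iff.1 hz2
        have h4 : (Z : End K V) (U z) = U ((Z : End K V) z) := by
          rw [hU, ← Module.End.mul_apply, ← Module.End.mul_apply, ← Units.val_mul, ← Units.val_mul,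
            hZu]
        rw [h4, h3, map_smul])
      exact ⟨w, hw.1, hw0, μ', ζ', hμ', Module.End.mem_eigenspace_iff.1 hw.2⟩
    have hAct : ∃ μ, Act μ := by
      let Q : Submodule K V := W ⊓ (Z : End K V).eigenspace ζ
      have hQ : Q ≠ ⊥ := by
        intro h0
        have : x ∈ Q := ⟨hx, Module.End.mem_eigenspace_iff.2 hZ⟩
        rw [h0, Submodule.mem_bot] at this
        exact hx0 this
      obtain ⟨w, hw, hw0, μ', hμ'⟩ := exists_eig hQ U (by
        rintro z ⟨hz1, hz2⟩
        refine ⟨hcW.1 z hz1, Module.End.mem_eigenspace_iff.2 ?_⟩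
        have h3 := Module.End.mem_eigenspace_iff.1 hz2
        have h4 : (Z : End K V) (U z) = U ((Z : End K V) z) := by
          rw [hU, ← Module.End.mul_apply, ← Module.End.mul_apply, ← Units.val_mul, ← Units.val_mul,
            hZu]
        rw [h4, h3, map_smul])
      refine ⟨μ', w, ⟨hw.1, ?_⟩, hw0, hμ', ζ, hζ, Module.End.mem_eigenspace_iff.1 hw.2⟩
      exact eigenspace_le_maxGenEigenspace (Module.End.mem_eigenspace_iff.2 hμ')
    obtain ⟨μ, hμ⟩ := hAct
    have hAct2 : ∃ μ', μ' ≠ μ ∧ Act μ' := by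
      by_contra hcon
      push Not at hcon
      obtain ⟨T, hT⟩ : ∃ T : (End K V)ˣ, T = Z * u c := ⟨_, rfl⟩
      have hTU : (T : End K V) * U = U * (T : End K V) := by
        rw [hT, hU, ← Units.val_mul, ← Units.val_mul, ← mul_assoc (u c), ← hZu]
      have hTv : (u c) * (v c) = v c * T := by
        have := hz c
        rw [← hT] at this
        rw [← this]; group
      have hTv' : T * (v c)⁻¹ = (v c)⁻¹ * u c := by
        have := hz c
        rw [← hT] at this
        rw [← this]; group
      let G : Submodule K V := W ⊓ (T : End K V).maxGenEigenspace μ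
      have hGU : ∀ y ∈ G, U y ∈ G := fun y hy =>
        ⟨hcW.1 y hy.1, mapsTo_maxGenEigenspace_of_comm (f := (T : End K V)) (g := U) hTU μ hy.2⟩
      have hTZ : Commute (T : End K V) (Z : End K V) := by
        show (T : End K V) * (Z : End K V) = (Z : End K V) * (T : End K V)
        rw [← Units.val_mul, ← Units.val_mul, hT, mul_assoc, ← hZu]
      have hGZ : ∀ y ∈ G, (Z : End K V) y ∈ G := fun y hy =>
        ⟨hZW.1 y hy.1, mapsTo_maxGenEigenspace_of_comm hTZ μ hy.2⟩
      have hTy : ∀ y (m z : K), U y = m • y → (Z : End K V) y = z • y →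
          (T : End K V) y = (z * m) • y := by
        intro y m z h1 h2
        rw [hT, Units.val_mul, Module.End.mul_apply, ← hU, h1, map_smul, h2, smul_smul, mul_comm]
      have hGle : G ≤ E μ := by
        have h1 := Submodule.eq_iSup_inf_genEigenspace (p := G) (f := U) ⊤ hGU
          (iSup_maxGenEigenspace_eq_top U)
        rw [h1]
        apply iSup_le
        intro ν
        by_cases hν : ν = μ
        · subst hν
          rintro y ⟨hy1, hy2⟩
          exact ⟨hy1.1, hy2⟩
        · have : G ⊓ U.genEigenspace ν ⊤ = ⊥ := by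
            by_contra hne
            obtain ⟨y, hy, hy0, m, z, hm, hz'⟩ := common _ hne
              (fun y hy => ⟨hGU y hy.1, mapsTo_maxGenEigenspace_of_comm (Commute.refl U) ν hy.2⟩)
              (fun y hy => ⟨hGZ y hy.1, mapsTo_maxGenEigenspace_of_comm (f := U) (g := (Z : End K V))
                (by
                  show U * (Z : End K V) = (Z : End K V) * U
                  rw [hU, ← Units.val_mul, ← Units.val_mul, hZu]) ν hy.2⟩)
            have hmν : m = ν := eig_of_mem_gen hy0 hm hy.2
            have h3 : z * m = μ := eig_of_mem_gen hy0 (hTy y m z hm hz') hy.1.2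
            apply hcon ν hν
            refine ⟨y, ⟨hy.1.1, hy.2⟩, hy0, by rw [← hmν]; exact hm, z, ?_, hz'⟩
            rintro rfl
            rw [one_mul] at h3
            exact hν (hmν.symm.trans h3)
          rw [this]
          exact bot_le
      have hrank : finrank K G = finrank K (E μ) := by
        apply le_antisymm (Submodule.finrank_mono hGle)
        let g : End K V := (((v c)⁻¹ : (End K V)ˣ) : End K V)
        have hginj : Function.Injective g := by
          intro p q hpq
          have := congrArg (v c : End K V) hpq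
          rw [← Module.End.mul_apply, ← Module.End.mul_apply, ← Units.val_mul, mul_inv_cancel] at this
          exact this
        have h1 : (E μ).map g ≤ G := by
          rintro _ ⟨y, hy, rfl⟩
          refine ⟨hvW.2 y hy.1, ?_⟩
          apply gen_intertwine (f := (T : End K V)) (h := U) (g := g) ?_ μ hy.2
          rw [hU]
          show (T : End K V) * (((v c)⁻¹ : (End K V)ˣ) : End K V) =
            (((v c)⁻¹ : (End K V)ˣ) : End K V) * (u c : End K V)
          rw [← Units.val_mul, ← Units.val_mul, hTv']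
        have h2 := Submodule.finrank_mono h1
        have h3 : finrank K ((E μ).map g) = finrank K (E μ) :=
          LinearEquiv.finrank_eq (Submodule.equivMapOfInjective g hginj (E μ)).symm
        rwa [h3] at h2
      have hGE : G = E μ := Submodule.eq_of_le_of_finrank_eq hGle hrank
      obtain ⟨y, hy, hy0, hyμ, z, hz1, hz2⟩ := hμ
      have hyG : y ∈ G := by rw [hGE]; exact hy
      have h3 := eig_of_mem_gen hy0 (hTy y μ z hyμ hz2) hyG.2
      have hμ0 : μ ≠ 0 := by
        rintro rfl
        rw [zero_smul] at hyμ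
        apply hy0
        have := congrArg (((u c)⁻¹ : (End K V)ˣ) : End K V) hyμ
        rw [hU, ← Module.End.mul_apply, ← Units.val_mul, inv_mul_cancel, map_zero] at this
        exact this
      exact hz1 (mul_right_cancel₀ hμ0 (by rw [h3, one_mul]))
    obtain ⟨μ', hμμ', hμ'⟩ := hAct2
    have hrec : ∀ ν, Act ν → 2 ^ (J.card + 1) ≤ finrank K (E ν) := by
      rintro ν ⟨y, hy, hy0, -, z, hz1, hz2⟩
      apply ih (E ν)
      · exact ha.inf (invU_gen (hau c).symm ν)
      · exact hb.inf (invU_gen (hbu c).symm ν)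
      · intro d hd
        exact (hu d (Finset.mem_insert_of_mem hd)).inf (invU_gen (huu c d) ν)
      · intro d hd
        have hcd : c ≠ d := fun h => hc (h ▸ hd)
        exact (hv d (Finset.mem_insert_of_mem hd)).inf (invU_gen (huv c d hcd) ν)
      · exact ⟨y, hy, hy0, z, hz1, hz2⟩
    have h1 := hrec μ hμ
    have h2 := hrec μ' hμ'
    have hdisj : E μ ⊓ E μ' = ⊥ := by
      have := (disjoint_genEigenspace U (Ne.symm hμμ') ⊤ ⊤).eq_bot
      rw [eq_bot_iff] at this ⊢
      refine le_trans ?_ this
      intro y hy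
      exact Submodule.mem_inf.2 ⟨hy.1.2, hy.2.2⟩
    have h3 := Submodule.finrank_sup_add_finrank_inf_eq (E μ) (E μ')
    rw [hdisj, finrank_bot, add_zero] at h3
    have h4 : finrank K ((E μ ⊔ E μ' : Submodule K V)) ≤ finrank K W :=
      Submodule.finrank_mono (sup_le inf_le_left inf_le_left)
    rw [Finset.card_insert_of_notMem hc, pow_succ]
    omega

end cube

end Pool.Agent.Helper460_OutF
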