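import Mathlib

set_option autoImplicit false

/-! Definitions: outer automorphism groups, surface groups and mapping class groups. -/

namespace Pool.Agent.Helper460_OutF

open FreeGroup (of)
open scoped commutatorElement

lemma conj_mul_aut {G : Type} [Group G] (φ : MulAut G) (g : G) :
    φ * MulAut.conj g * φ⁻¹ = MulAut.conj (φ g) := by
  rw [mul_inv_eq_iff_eq_mul]
  ext x
  simp [MulAut.conj_apply]

instance inn_normal (G : Type) [Group G] : (MulAut.conj : G →* MulAut G).range.Normal :=
  ⟨fun _ ⟨g, hg⟩ φ => ⟨φ g, by rw [← hg, conj_mul_aut]⟩⟩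

/-- The outer automorphism group of a group: automorphisms modulo inner automorphisms. -/
def OutGrp (G : Type) [Group G] : Type := MulAut G ⧸ (MulAut.conj : G →* MulAut G).range

instance (G : Type) [Group G] : Group (OutGrp G) :=
  inferInstanceAs (Group (MulAut G ⧸ (MulAut.conj : G →* MulAut G).range))

/-- The outer class of an automorphism. -/
def outCls (G : Type) [Group G] : MulAut G →* OutGrp G := QuotientGroup.mk' _

/-- Index set of the standard generators of a surface group: `a_i`, `b_i` and `c_j`. -/
abbrev SGen (g p : ℕ) : Type := (Fin g ⊕ Fin g) ⊕ Fin p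

/-- The surface relator `[a_1,b_1]⋯[a_g,b_g] c_1 ⋯ c_p`. -/
def srel (g p : ℕ) : FreeGroup (SGen g p) :=
  (List.ofFn fun i : Fin g =>
      ⁅(of (Sum.inl (Sum.inl i)) : FreeGroup (SGen g p)), of (Sum.inl (Sum.inr i))⁆).prod *
    (List.ofFn fun j : Fin p => (of (Sum.inr j) : FreeGroup (SGen g p))).prod

/-- The fundamental group of the surface of genus `g` with `p` punctures. -/
def SurfGrp (g p : ℕ) : Type := PresentedGroup ({srel g p} : Set (FreeGroup (SGen g p)))

instance (g p : ℕ) : Group (SurfGrp g p) :=
  inferInstanceAs (Group (PresentedGroup ({srel g p} : Set (FreeGroup (SGen g p)))))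

/-- The loop `c_j` around the `j`-th puncture. -/
def ploop (g p : ℕ) (j : Fin p) : SurfGrp g p :=
  (PresentedGroup.of (Sum.inr j) : PresentedGroup ({srel g p} : Set (FreeGroup (SGen g p))))

/-- An element is peripheral if it is conjugate to some `c_j`. -/
def IsPeri {g p : ℕ} (x : SurfGrp g p) : Prop := ∃ j, IsConj x (ploop g p j)

/-- The automorphism preserves the set of peripheral elements. -/
def PresPeri {g p : ℕ} (α : MulAut (SurfGrp g p)) : Prop := ∀ x, IsPeri (α x) ↔ IsPeri x

lemma PresPeri.mul {g p : ℕ} {α β : MulAut (SurfGrp g p)} (hα : PresPeri α)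
    (hβ : PresPeri β) : PresPeri (α * β) := fun x => (hα (β x)).trans (hβ x)

lemma PresPeri.one {g p : ℕ} : PresPeri (1 : MulAut (SurfGrp g p)) := fun _ => Iff.rfl

lemma PresPeri.inv {g p : ℕ} {α : MulAut (SurfGrp g p)} (hα : PresPeri α) : PresPeri α⁻¹ := by
  intro x
  have := hα (α⁻¹ x)
  rw [← MulAut.mul_apply, mul_inv_cancel, MulAut.one_apply] at this
  exact this.symm

/-- The group of automorphisms preserving the set of peripheral elements. -/
def AutPeri (g p : ℕ) : Subgroup (MulAut (SurfGrp g p)) where
  carrier := {α | PresPeri α}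
  mul_mem' := PresPeri.mul
  one_mem' := PresPeri.one
  inv_mem' := PresPeri.inv

/-- The mapping class group as a subgroup: outer automorphisms preserving the set of
peripheral elements. -/
def MCGsub (g p : ℕ) : Subgroup (OutGrp (SurfGrp g p)) :=
  (AutPeri g p).map (outCls (SurfGrp g p))

/-- The mapping class group: outer automorphisms preserving the set of peripheral elements. -/
def MCG (g p : ℕ) : Type := MCGsub g p

instance (g p : ℕ) : Group (MCG g p) := inferInstanceAs (Group (MCGsub g p))

/-- The mapping class `x` moves the puncture `j` to the puncture `k`. -/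
def Moves {g p : ℕ} (x : MCG g p) (j k : Fin p) : Prop :=
  ∃ α : MulAut (SurfGrp g p), x.1 = outCls (SurfGrp g p) α ∧ IsConj (α (ploop g p j)) (ploop g p k)

/-- The outer automorphism group of the free group of rank `n`. -/
def OutF (n : ℕ) : Type := OutGrp (FreeGroup (Fin n))

instance (n : ℕ) : Group (OutF n) := inferInstanceAs (Group (OutGrp (FreeGroup (Fin n))))

/-- The subgroup contains the Torelli group: it contains the outer classes of all automorphisms
acting trivially on the abelianisation. -/
def ContainsTorelli {n : ℕ} (Γ : Subgroup (OutF n)) : Prop :=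
  ∀ α : MulAut (FreeGroup (Fin n)),
    (∀ x, Abelianization.of (α x) = Abelianization.of x) → outCls (FreeGroup (Fin n)) α ∈ Γ

/-- The set of punctures in the orbit of the puncture `j` under the image of `φ`. -/
def pOrbit {n g p : ℕ} {Γ : Subgroup (OutF n)} (φ : Γ →* MCG g p) (j : Fin p) : Set (Fin p) :=
  {k | ∃ γ : Γ, Moves (φ γ) j k}

end Pool.Agent.Helper460_OutF
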