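import Pool.Agent.H12.CSP.A.Helper460_OutF.Lin3
import Pool.Agent.H12.CSP.A.Helper460_OutF.Fam

set_option autoImplicit false
set_option linter.unusedSectionVars false
set_option linter.unusedSimpArgs false

namespace Pool.Agent.Helper460_OutF

open FreeGroup (of)

section

variable {ι : Type} [DecidableEq ι] [Fintype ι]

/-- The step for finite groups. -/
theorem step_of_finite {Γ : Subgroup (MulAut (FreeGroup ι))} {H : Type} [Group H] [Finite H]
    [hN : Γ.Normal] [hfi : Γ.FiniteIndex] (hIA : IA (FreeGroup ι) ≤ Γ)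
    (ρ : Γ →* H) (hinn : ∀ g (h : MulAut.conj g ∈ Γ), ρ ⟨MulAut.conj g, h⟩ = 1)
    (hC : NoCube (Fintype.card ι - 3) H) :
    ∃ M, Step ((kerA Γ ρ).normalCore) M := by
  have hcck := cck_core hIA hC (fun ρ' i j k hij hik => isOfFinOrder_of_finite _) ρ
  have hNnorm : ((kerA Γ ρ).normalCore).Normal := Subgroup.normalCore_normal _
  have hK : (kerA Γ ρ).FiniteIndex := by
    refine ⟨?_⟩
    unfold kerA
    rw [Subgroup.index_map_subtype]
    exact mul_ne_zero (Subgroup.FiniteIndex.index_ne_zero) hfi.index_ne_zero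
  have hNf : ((kerA Γ ρ).normalCore).FiniteIndex := inferInstance
  refine ⟨((kerA Γ ρ).normalCore).index, Nat.pos_of_ne_zero hNf.index_ne_zero, ?_, hcck, ?_⟩
  · intro g b
    have e : b * MulAut.conj g * b⁻¹ = MulAut.conj (b g) := by
      rw [mul_inv_eq_iff_eq_mul]
      ext x
      simp [MulAut.conj_apply]
    rw [e]
    exact mem_kerA.2 ⟨hIA (conj_mem_IA _), hinn _ _⟩
  · intro i j hij
    exact Subgroup.pow_index_mem _ _

lemma N1_of_step {Γ : Subgroup (MulAut (FreeGroup ι))} {H : Type} [Group H] {ρ : Γ →* H}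
    (h : ∃ M, Step ((kerA Γ ρ).normalCore) M) : ∃ M, 0 < M ∧ N1 ι M ≤ kerA Γ ρ := by
  obtain ⟨M, hM⟩ := h
  have hNn : ((kerA Γ ρ).normalCore).Normal := Subgroup.normalCore_normal _
  exact ⟨M, hM.pos, (N1_le hM).trans (Subgroup.normalCore_le _)⟩

/-- Finitely many kernels at once. -/
lemma N1_finite {Γ : Subgroup (MulAut (FreeGroup ι))} {T : Type} [Finite T]
    {H : T → Type} [∀ t, Group (H t)] (ρ : ∀ t, Γ →* H t)
    (h : ∀ t, ∃ M, 0 < M ∧ N1 ι M ≤ kerA Γ (ρ t)) :
    ∃ M, 0 < M ∧ ∀ t, N1 ι M ≤ kerA Γ (ρ t) := by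
  classical
  have _inst := Fintype.ofFinite T
  choose M hM hM2 using h
  refine ⟨∏ t, M t, Finset.prod_pos fun t _ => hM t, fun t => ?_⟩
  exact (N1_dvd_le (Finset.prod_pos fun t _ => hM t)
    (Finset.dvd_prod_of_mem M (Finset.mem_univ t))).trans (hM2 t)

end

end Pool.Agent.Helper460_OutF
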