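import Mathlib

set_option autoImplicit false

namespace Pool.Agent.Helper460_OutF

open scoped Pointwise commutatorElement IsMulCommutative

/-- A group generated by finitely many commuting elements of finite order is finite. -/
lemma finite_closure_of_comm {G : Type*} [Group G] {S : Set G} (hS : S.Finite)
    (hc : ∀ a ∈ S, ∀ b ∈ S, a * b = b * a) {M : ℕ} (hM : 0 < M) (hp : ∀ a ∈ S, a ^ M = 1) :
    Finite (Subgroup.closure S) := by
  have hcomm := Subgroup.isMulCommutative_closure hc
  let _ : CommGroup (Subgroup.closure S) := inferInstance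
  have : Finite S := hS
  have hfg : Group.FG (Subgroup.closure S) := Group.closure_finite_fg S
  apply CommGroup.finite_of_fg_isMulTorsion
  rintro ⟨x, hx⟩
  rw [isOfFinOrder_iff_pow_eq_one]
  refine ⟨M, hM, ?_⟩
  have key : ∀ y ∈ Subgroup.closure S, y ^ M = 1 := by
    intro y hy
    induction hy using Subgroup.closure_induction with
    | mem a ha => exact hp a ha
    | one => simp
    | mul a b ha hb h1 h2 =>
      have h3 : Commute a b := by
        have := mul_comm (⟨a, ha⟩ : Subgroup.closure S) ⟨b, hb⟩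
        exact congrArg Subtype.val this
      rw [h3.mul_pow, h1, h2, one_mul]
    | inv a ha h1 => rw [inv_pow, h1, inv_one]
  ext
  exact key x hx

/-- Conjugation-stability of a finite subgroup on generators gives normalisation. -/
lemma mem_normalizer_of_finite {G : Type*} [Group G] {H : Subgroup G} [Finite H] {g : G}
    (h : ∀ x ∈ H, g * x * g⁻¹ ∈ H) : g ∈ Subgroup.normalizer (H : Set G) := by
  have : Finite (H : Set G) := ‹Finite H›
  have h1 := Subgroup.mem_normalizer_fintype (S := (H : Set G)) (x := g) h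
  exact h1

lemma mem_normalizer_closure {G : Type*} [Group G] {S : Set G}
    [Finite (Subgroup.closure S)] {g : G}
    (h : ∀ x ∈ S, g * x * g⁻¹ ∈ Subgroup.closure S) :
    g ∈ Subgroup.normalizer (Subgroup.closure S : Set G) := by
  apply mem_normalizer_of_finite
  intro x hx
  induction hx using Subgroup.closure_induction with
  | mem a ha => exact h a ha
  | one => simp
  | mul a b ha hb h1 h2 =>
    have : g * (a * b) * g⁻¹ = (g * a * g⁻¹) * (g * b * g⁻¹) := by group
    rw [this]
    exact Subgroup.mul_mem _ h1 h2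
  | inv a ha h1 =>
    have : g * a⁻¹ * g⁻¹ = (g * a * g⁻¹)⁻¹ := by group
    rw [this]
    exact Subgroup.inv_mem _ h1

/-- Schur: a group whose centre has finite index has finite commutator subgroup. -/
lemma finite_commutator_of_center {G : Type*} [Group G] [(Subgroup.center G).FiniteIndex] :
    Finite (commutator G) := by
  have : Finite (commutatorSet G) := by
    have hQ : Finite (G ⧸ Subgroup.center G) := inferInstance
    have hfin : (Set.range (fun p : (G ⧸ Subgroup.center G) × (G ⧸ Subgroup.center G) =>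
        ⁅Quotient.out p.1, Quotient.out p.2⁆)).Finite := Set.finite_range _
    refine hfin.subset ?_
    rintro _ ⟨a, b, rfl⟩
    refine ⟨((a : G ⧸ Subgroup.center G), (b : G ⧸ Subgroup.center G)), ?_⟩
    have h1 : (Quotient.out (a : G ⧸ Subgroup.center G))⁻¹ * a ∈ Subgroup.center G := by
      rw [← QuotientGroup.eq]
      exact Quotient.out_eq _
    have h2 : (Quotient.out (b : G ⧸ Subgroup.center G))⁻¹ * b ∈ Subgroup.center G := by
      rw [← QuotientGroup.eq]
      exact Quotient.out_eq _
    show ⁅Quotient.out (a : G ⧸ Subgroup.center G), Quotient.out (b : G ⧸ Subgroup.center G)⁆ =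
      ⁅a, b⁆
    obtain ⟨z, hz⟩ : ∃ z, z = (Quotient.out (a : G ⧸ Subgroup.center G))⁻¹ * a := ⟨_, rfl⟩
    obtain ⟨w, hw⟩ : ∃ w, w = (Quotient.out (b : G ⧸ Subgroup.center G))⁻¹ * b := ⟨_, rfl⟩
    rw [← hz] at h1
    rw [← hw] at h2
    have ha : a = Quotient.out (a : G ⧸ Subgroup.center G) * z := by rw [hz]; group
    have hb : b = Quotient.out (b : G ⧸ Subgroup.center G) * w := by rw [hw]; group
    generalize Quotient.out (a : G ⧸ Subgroup.center G) = a' at *
    generalize Quotient.out (b : G ⧸ Subgroup.center G) = b' at *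
    rw [Subgroup.mem_center_iff] at h1 h2
    rw [ha, hb, commutatorElement_def, commutatorElement_def]
    have e1 : a' * z * (b' * w) * (a' * z)⁻¹ * (b' * w)⁻¹ =
        a' * (z * b') * w * z⁻¹ * a'⁻¹ * w⁻¹ * b'⁻¹ := by group
    have e2 : a'⁻¹ * w⁻¹ = w⁻¹ * a'⁻¹ := by
      have := h2 a'
      rw [← mul_inv_rev, ← mul_inv_rev, this]
    have e3 : w * z⁻¹ = z⁻¹ * w := by
      have := h1 w
      rw [eq_inv_mul_iff_mul_eq, ← mul_assoc, ← this]; group
    rw [e1, ← h1 b']
    calc a' * b' * a'⁻¹ * b'⁻¹ = a' * b' * z * (z⁻¹ * w) * (w⁻¹ * a'⁻¹) * b'⁻¹ := by group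
      _ = a' * b' * z * (w * z⁻¹) * (a'⁻¹ * w⁻¹) * b'⁻¹ := by rw [e2, e3]
      _ = a' * (b' * z) * w * z⁻¹ * a'⁻¹ * w⁻¹ * b'⁻¹ := by group
  infer_instance

/-- A perfect group whose centre has finite index is finite. -/
lemma finite_of_perfect {G : Type*} [Group G] [(Subgroup.center G).FiniteIndex]
    (h : commutator G = ⊤) : Finite G := by
  have h1 : Finite (commutator G) := finite_commutator_of_center
  rw [h] at h1
  exact Finite.of_equiv _ Subgroup.topEquiv.toEquiv

/-- Powers of a generating set of a finite subgroup exhaust it. -/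
lemma exists_pow_eq {G : Type*} [Group G] {S : Set G} [Finite (Subgroup.closure S)]
    {T : Set G} (hT1 : 1 ∈ T) (hTS : ∀ s ∈ S, s ∈ T ∧ s⁻¹ ∈ T)
    (hT : T ⊆ (Subgroup.closure S : Set G)) :
    ∃ L0 : ℕ, ∀ L, L0 ≤ L → T ^ L = (Subgroup.closure S : Set G) := by
  classical
  have h1 : ∀ x ∈ Subgroup.closure S, ∃ L : ℕ, x ∈ T ^ L := by
    intro x hx
    induction hx using Subgroup.closure_induction_left with
    | one => exact ⟨0, by simp⟩
    | mul_left s hs y hy ih =>
      obtain ⟨L, hL⟩ := ih
      exact ⟨L + 1, by rw [pow_succ']; exact Set.mul_mem_mul (hTS s hs).1 hL⟩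
    | inv_mul_cancel s hs y hy ih =>
      obtain ⟨L, hL⟩ := ih
      exact ⟨L + 1, by rw [pow_succ']; exact Set.mul_mem_mul (hTS s hs).2 hL⟩
  have hmono : ∀ a b : ℕ, a ≤ b → T ^ a ⊆ T ^ b := fun a b hab =>
    Set.pow_subset_pow_right hT1 hab
  choose! f hf using h1
  have : Fintype (Subgroup.closure S) := Fintype.ofFinite _
  refine ⟨Finset.univ.sup (fun x : Subgroup.closure S => f x), fun L hL => ?_⟩
  apply Set.Subset.antisymm
  · have hpow : ∀ n : ℕ, T ^ n ⊆ (Subgroup.closure S : Set G) := by
      intro n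
      induction n with
      | zero => simp [Set.one_subset, Subgroup.one_mem]
      | succ n ih =>
        rw [pow_succ]
        rintro _ ⟨a, ha, b, hb, rfl⟩
        exact Subgroup.mul_mem _ (ih ha) (hT hb)
    exact hpow L
  · intro x hx
    refine hmono (f x) L (le_trans ?_ hL) (hf x hx)
    exact Finset.le_sup (f := fun x : Subgroup.closure S => f x) (Finset.mem_univ ⟨x, hx⟩)

/-- Extensions of finite groups are finite. -/
lemma finite_of_quotient {G : Type*} [Group G] (H : Subgroup G) [Finite H] [Finite (G ⧸ H)] :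
    Finite G := by
  exact Finite.of_equiv _ (Subgroup.groupEquivQuotientProdSubgroup (s := H)).symm

end Pool.Agent.Helper460_OutF
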