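import Pool.Agent.H12.CSP.A.Helper460_OutF.Quot
import Pool.Agent.H12.CSP.A.Helper460_OutF.Pair
import Pool.Agent.H12.CSP.A.Helper460_OutF.Defs

set_option autoImplicit false
set_option linter.unusedSectionVars false
set_option linter.unusedSimpArgs false

namespace Pool.Agent.Helper460_OutF

open FreeGroup (of)
open scoped commutatorElement Pointwise

/-- The automorphisms acting trivially on the abelianisation. -/
def IA (F : Type) [Group F] : Subgroup (MulAut F) where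
  carrier := {α | ∀ x, Abelianization.of (α x) = Abelianization.of x}
  mul_mem' := by
    intro a b ha hb x
    rw [MulAut.mul_apply, ha, hb]
  one_mem' := fun _ => rfl
  inv_mem' := by
    intro a ha x
    have := ha (a⁻¹ x)
    rw [← MulAut.mul_apply, mul_inv_cancel, MulAut.one_apply] at this
    exact this.symm

lemma mem_IA {F : Type} [Group F] {α : MulAut F} :
    α ∈ IA F ↔ ∀ x, Abelianization.of (α x) = Abelianization.of x := Iff.rfl

lemma conj_mem_IA {F : Type} [Group F] (g : F) : MulAut.conj g ∈ IA F := by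
  intro x
  rw [MulAut.conj_apply, map_mul, map_mul, map_inv, mul_comm (Abelianization.of g),
    mul_inv_cancel_right]

lemma abel_lift_congr {F : Type} [Group F] (α : MulAut F) {x y : F}
    (h : Abelianization.of x = Abelianization.of y) :
    Abelianization.of (α x) = Abelianization.of (α y) := by
  have h1 : ∀ z, Abelianization.of (α z) =
      Abelianization.lift ((Abelianization.of (G := F)).comp (α : F →* F))
        (Abelianization.of z) := by
    intro z
    rw [Abelianization.lift_apply_of]; rfl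
  rw [h1, h1, h]

instance IA_normal (F : Type) [Group F] : (IA F).Normal := by
  constructor
  intro a ha b x
  rw [MulAut.mul_apply, MulAut.mul_apply]
  have h1 := ha (b⁻¹ x)
  have h2 := abel_lift_congr b h1
  rw [h2, ← MulAut.mul_apply, mul_inv_cancel, MulAut.one_apply]

/-- A group has no triangular families of size at least `r`. -/
def NoTriFam (r : ℕ) (H : Type) [Group H] : Prop :=
  ∀ (J : Type) [Finite J], r ≤ Nat.card J → NoTri J H

section

variable {ι : Type} [DecidableEq ι]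

lemma mem_IA_of_gen {α : MulAut (FreeGroup ι)}
    (h : ∀ j, Abelianization.of (α (of j)) = Abelianization.of (of j)) : α ∈ IA (FreeGroup ι) := by
  have : (Abelianization.of (G := FreeGroup ι)).comp (α : FreeGroup ι →* FreeGroup ι) =
      Abelianization.of (G := FreeGroup ι) := by
    ext j
    exact h j
  intro x
  exact DFunLike.congr_fun this x

lemma cc_mem_IA (i : ι) (w : FreeGroup ι) : cc i w ∈ IA (FreeGroup ι) := by
  apply mem_IA_of_gen
  intro j
  by_cases h : j = i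
  · subst h
    rw [cc_self, map_mul, map_mul, map_inv, mul_comm, ← mul_assoc, mul_inv_cancel, one_mul]
  · rw [cc_ne h]

lemma rr_comm_mem_IA (i : ι) (u v : FreeGroup ι) : rr i ⁅u, v⁆ ∈ IA (FreeGroup ι) := by
  apply mem_IA_of_gen
  intro j
  by_cases h : j = i
  · subst h
    rw [rr_self, map_mul, map_commutatorElement, map_commutatorElement,
      commutatorElement_eq_one_iff_commute.2 (Commute.all _ _), mul_one]
  · rw [rr_ne h]

variable [Fintype ι] {H : Type} [Group H] (Γ : Subgroup (MulAut (FreeGroup ι)))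

/-- The kernel of a homomorphism on a subgroup, as a subgroup of the ambient group. -/
def kerA (ρ : Γ →* H) : Subgroup (MulAut (FreeGroup ι)) := ρ.ker.map Γ.subtype

variable {Γ} {ρ : Γ →* H}

lemma mem_kerA {x : MulAut (FreeGroup ι)} : x ∈ kerA Γ ρ ↔ ∃ h : x ∈ Γ, ρ ⟨x, h⟩ = 1 := by
  unfold kerA
  rw [Subgroup.mem_map]
  constructor
  · rintro ⟨⟨y, hy⟩, h1, rfl⟩
    exact ⟨hy, h1⟩
  · rintro ⟨hx, h1⟩
    exact ⟨⟨x, hx⟩, h1, rfl⟩

lemma kerA_conj {x y : MulAut (FreeGroup ι)} (hy : y ∈ Γ) (hx : x ∈ kerA Γ ρ) :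
    y * x * y⁻¹ ∈ kerA Γ ρ := by
  obtain ⟨h1, h2⟩ := mem_kerA.1 hx
  refine mem_kerA.2 ⟨Γ.mul_mem (Γ.mul_mem hy h1) (Γ.inv_mem hy), ?_⟩
  have : (⟨y * x * y⁻¹, Γ.mul_mem (Γ.mul_mem hy h1) (Γ.inv_mem hy)⟩ : Γ) =
      ⟨y, hy⟩ * ⟨x, h1⟩ * ⟨y, hy⟩⁻¹ := rfl
  rw [this, map_mul, map_mul, h2, map_inv, mul_one, mul_inv_cancel]

lemma triKb [hN : Γ.Normal] {J : Type} (hJ : NoTri J H) (rk : J → ℕ)
    (g h : J → MulAut (FreeGroup ι)) (b : MulAut (FreeGroup ι))
    (hg : ∀ j, g j ∈ Γ) (hh : ∀ j, h j ∈ Γ)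
    (hc : ∀ i j, i ≠ j → rk i ≤ rk j →
      g i * h j * (g i)⁻¹ * (h j)⁻¹ ∈ (kerA Γ ρ).normalCore) :
    ∃ i, b * (g i * h i * (g i)⁻¹ * (h i)⁻¹) * b⁻¹ ∈ kerA Γ ρ := by
  have hg' : ∀ j, b * g j * b⁻¹ ∈ Γ := fun j => hN.conj_mem _ (hg j) b
  have hh' : ∀ j, b * h j * b⁻¹ ∈ Γ := fun j => hN.conj_mem _ (hh j) b
  have hmem : ∀ i j, b * (g i * h j * (g i)⁻¹ * (h j)⁻¹) * b⁻¹ ∈ Γ := fun i j =>
    hN.conj_mem _ (Γ.mul_mem (Γ.mul_mem (Γ.mul_mem (hg i) (hh j)) (Γ.inv_mem (hg i)))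
      (Γ.inv_mem (hh j))) b
  have key : ∀ i j, ρ ⟨b * g i * b⁻¹, hg' i⟩ * ρ ⟨b * h j * b⁻¹, hh' j⟩ =
      ρ ⟨_, hmem i j⟩ * (ρ ⟨b * h j * b⁻¹, hh' j⟩ * ρ ⟨b * g i * b⁻¹, hg' i⟩) := by
    intro i j
    rw [← map_mul, ← map_mul, ← map_mul]
    congr 1
    ext1
    show b * g i * b⁻¹ * (b * h j * b⁻¹) = b * (g i * h j * (g i)⁻¹ * (h j)⁻¹) * b⁻¹ *
      (b * h j * b⁻¹ * (b * g i * b⁻¹))
    group
  obtain ⟨i, hi⟩ := hJ rk (fun j => ρ ⟨b * g j * b⁻¹, hg' j⟩) (fun j => ρ ⟨b * h j * b⁻¹, hh' j⟩) (by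
    intro i j hij hrk
    obtain ⟨h1, h2⟩ := mem_kerA.1 (hc i j hij hrk b)
    rw [key i j]
    have h3 : ρ ⟨_, hmem i j⟩ = 1 := h2
    rw [h3, one_mul])
  refine ⟨i, mem_kerA.2 ⟨hmem i i, ?_⟩⟩
  have h4 := key i i
  have hi' : ρ ⟨b * g i * b⁻¹, hg' i⟩ * ρ ⟨b * h i * b⁻¹, hh' i⟩ =
    ρ ⟨b * h i * b⁻¹, hh' i⟩ * ρ ⟨b * g i * b⁻¹, hg' i⟩ := hi
  rw [hi'] at h4
  exact (right_eq_mul.1 h4)

/-- The doubled family with a middle pair. -/
lemma doubleK [hN : Γ.Normal] {r : ℕ} (hH : NoTriFam r H) {J : Type} [Finite J]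
    (hr : r ≤ 2 * Nat.card J + 2)
    (u v : J → MulAut (FreeGroup ι)) (x y b : MulAut (FreeGroup ι))
    (hu : ∀ j, u j ∈ Γ) (hv : ∀ j, v j ∈ Γ) (hx : x ∈ Γ) (hy : y ∈ Γ)
    (huu : ∀ i j, u i * u j * (u i)⁻¹ * (u j)⁻¹ ∈ (kerA Γ ρ).normalCore)
    (huv : ∀ i j, i ≠ j → u i * v j * (u i)⁻¹ * (v j)⁻¹ ∈ (kerA Γ ρ).normalCore)
    (hux : ∀ i, u i * x * (u i)⁻¹ * x⁻¹ ∈ (kerA Γ ρ).normalCore)
    (huy : ∀ i, u i * y * (u i)⁻¹ * y⁻¹ ∈ (kerA Γ ρ).normalCore) :
    (∃ i, b * (u i * v i * (u i)⁻¹ * (v i)⁻¹) * b⁻¹ ∈ kerA Γ ρ) ∨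
      b * (x * y * x⁻¹ * y⁻¹) * b⁻¹ ∈ kerA Γ ρ := by
  set N := (kerA Γ ρ).normalCore with hNdef
  have hinv : ∀ p q : MulAut (FreeGroup ι), p * q * p⁻¹ * q⁻¹ ∈ N → q * p * q⁻¹ * p⁻¹ ∈ N := by
    intro p q h
    have := N.inv_mem h
    convert this using 1
    group
  have hinvK : ∀ p q : MulAut (FreeGroup ι), b * (p * q * p⁻¹ * q⁻¹) * b⁻¹ ∈ kerA Γ ρ →
      b * (q * p * q⁻¹ * p⁻¹) * b⁻¹ ∈ kerA Γ ρ := by
    intro p q h
    have := (kerA Γ ρ).inv_mem h
    convert this using 1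
    group
  have hself : ∀ p : MulAut (FreeGroup ι), p * p * p⁻¹ * p⁻¹ ∈ N := by
    intro p
    convert N.one_mem using 1
    group
  let rk : (J ⊕ J) ⊕ Bool → ℕ := Sum.elim (Sum.elim (fun _ => 0) (fun _ => 3))
    (fun t => if t then 1 else 2)
  let G : (J ⊕ J) ⊕ Bool → MulAut (FreeGroup ι) := Sum.elim (Sum.elim u v)
    (fun t => if t then x else y)
  let L : (J ⊕ J) ⊕ Bool → MulAut (FreeGroup ι) := Sum.elim (Sum.elim v u)
    (fun t => if t then y else x)
  have hcard : r ≤ Nat.card ((J ⊕ J) ⊕ Bool) := by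
    rw [Nat.card_sum, Nat.card_sum, Nat.card_eq_fintype_card (α := Bool), Fintype.card_bool]
    omega
  obtain ⟨i, hi⟩ := triKb (ρ := ρ) (hH _ hcard) rk G L b
    (by rintro ((j | j) | (_ | _)) <;> simp [G, hu, hv, hx, hy])
    (by rintro ((j | j) | (_ | _)) <;> simp [L, hu, hv, hx, hy])
    (by
      rintro ((i | i) | (_ | _)) ((j | j) | (_ | _)) hij hrk
      · exact huv i j (fun h => hij (by rw [h]))
      · exact huu i j
      · exact hux i
      · exact huy i
      · simp [rk] at hrk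
      · exact hinv _ _ (huv j i (fun h => hij (by rw [h])))
      · simp [rk] at hrk
      · simp [rk] at hrk
      · simp [rk] at hrk
      · exact hinv _ _ (huy j)
      · exact absurd rfl hij
      · simp [rk] at hrk
      · simp [rk] at hrk
      · exact hinv _ _ (hux j)
      · exact hself x
      · exact absurd rfl hij)
  rcases i with ((i | i) | (_ | _))
  · exact Or.inl ⟨i, hi⟩
  · exact Or.inl ⟨i, hinvK _ _ hi⟩
  · exact Or.inr (hinvK _ _ hi)
  · exact Or.inr hi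

/-- The conclusions of the linear step for a normal subgroup `N`. -/
structure Step (N : Subgroup (MulAut (FreeGroup ι))) (M : ℕ) : Prop where
  pos : 0 < M
  inn : ∀ g, MulAut.conj g ∈ N
  cck : ∀ i j k, i ≠ j → i ≠ k → cc i ⁅of j, of k⁆ ∈ N
  rrp : ∀ i j, i ≠ j → (rr i (of j)) ^ M ∈ N

lemma card_ne3 (a b c : ι) :
    Fintype.card ι - 3 ≤ Nat.card {j : ι // j ≠ a ∧ j ≠ b ∧ j ≠ c} := by
  classical
  rw [Nat.card_eq_fintype_card, Fintype.card_subtype]
  have : (Finset.univ.filter (fun j : ι => j ≠ a ∧ j ≠ b ∧ j ≠ c)) =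
      Finset.univ \ {a, b, c} := by
    ext j
    simp only [Finset.mem_filter, Finset.mem_univ, true_and, Finset.mem_sdiff,
      Finset.mem_insert, Finset.mem_singleton, not_or]
  rw [this]
  have h1 := Finset.le_card_sdiff ({a, b, c} : Finset ι) Finset.univ
  have h2 : ({a, b, c} : Finset ι).card ≤ 3 := Finset.card_le_three
  rw [Finset.card_univ] at h1
  omega

lemma card_ne2 (a b : ι) :
    Fintype.card ι - 3 ≤ Nat.card {j : ι // j ≠ a ∧ j ≠ b} := by
  have h1 := card_ne3 a b b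
  have h2 : Nat.card {j : ι // j ≠ a ∧ j ≠ b ∧ j ≠ b} = Nat.card {j : ι // j ≠ a ∧ j ≠ b} := by
    congr 1
    apply congrArg
    funext j
    simp
  omega

/-- **The linear step.** -/
theorem step_of_noTri [hN : Γ.Normal] [hfi : Γ.FiniteIndex] (h4 : 4 ≤ Fintype.card ι)
    (hIA : IA (FreeGroup ι) ≤ Γ)
    (ρ : Γ →* H) (hinn : ∀ g (h : MulAut.conj g ∈ Γ), ρ ⟨MulAut.conj g, h⟩ = 1)
    (hH : NoTriFam (2 * Fintype.card ι - 4) H) :
    ∃ M, Step ((kerA Γ ρ).normalCore) M := by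
  set K := kerA Γ ρ with hK
  set N := K.normalCore with hNdef
  have hmN : ∀ x, x ∈ N ↔ ∀ b, b * x * b⁻¹ ∈ K := fun x => Iff.rfl
  have hNnorm : N.Normal := Subgroup.normalCore_normal K
  have hcomm1 : ∀ p q : MulAut (FreeGroup ι), p * q = q * p → p * q * p⁻¹ * q⁻¹ ∈ N := by
    intro p q h
    rw [h]
    convert N.one_mem using 1
    group
  have hIK : ∀ g, MulAut.conj g ∈ N := by
    intro g
    rw [hmN]
    intro b
    have e : b * MulAut.conj g * b⁻¹ = MulAut.conj (b g) := by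
      rw [mul_inv_eq_iff_eq_mul]
      ext x
      simp [MulAut.conj_apply]
    rw [e]
    exact mem_kerA.2 ⟨hIA (conj_mem_IA _), hinn _ _⟩
  have hcck : ∀ i j k, i ≠ j → i ≠ k → cc i ⁅of j, of k⁆ ∈ N := by
    intro i j k hij hik
    rw [hmN]
    intro b
    have hr : 2 * Fintype.card ι - 4 ≤ 2 * Nat.card {c : ι // c ≠ i ∧ c ≠ j ∧ c ≠ k} + 2 := by
      have := card_ne3 i j k
      omega
    rcases doubleK (ρ := ρ) hH hr (fun c : {c : ι // c ≠ i ∧ c ≠ j ∧ c ≠ k} =>
        rr (c : ι) ⁅of j, of k⁆) (fun c => cc i (of (c : ι))) (cc i (of j)) (cc i (of k)) b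
      (fun c => hIA (rr_comm_mem_IA _ _ _)) (fun c => hIA (cc_mem_IA _ _))
      (hIA (cc_mem_IA _ _)) (hIA (cc_mem_IA _ _)) (by
        rintro ⟨c, hc1, hc2, hc3⟩ ⟨d, hd1, hd2, hd3⟩
        apply hcomm1
        by_cases hcd : c = d
        · subst hcd; rfl
        · show lr c (1, ⁅of j, of k⁆) * lr d (1, ⁅of j, of k⁆) = _
          exact lr_lr_comm hcd (map_one _) (kil_comm_of (Ne.symm hd2) (Ne.symm hd3))
            (map_one _) (kil_comm_of (Ne.symm hc2) (Ne.symm hc3))) (by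
        rintro ⟨c, hc1, hc2, hc3⟩ ⟨d, hd1, hd2, hd3⟩ hcd
        apply hcomm1
        have hcd' : d ≠ c := fun h => hcd (by subst h; rfl)
        have := (pres_rr (i := i) (p := c) (Ne.symm hc1) (kil_comm_of (Ne.symm hij)
          (Ne.symm hik))).cc (of d)
        rw [mul_inv_eq_iff_eq_mul, rr_ne hcd'] at this
        exact this) (by
        rintro ⟨c, hc1, hc2, hc3⟩
        apply hcomm1
        have := (pres_rr (i := i) (p := c) (Ne.symm hc1) (kil_comm_of (Ne.symm hij)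
          (Ne.symm hik))).cc (of j)
        rw [mul_inv_eq_iff_eq_mul, rr_ne (Ne.symm hc2)] at this
        exact this) (by
        rintro ⟨c, hc1, hc2, hc3⟩
        apply hcomm1
        have := (pres_rr (i := i) (p := c) (Ne.symm hc1) (kil_comm_of (Ne.symm hij)
          (Ne.symm hik))).cc (of k)
        rw [mul_inv_eq_iff_eq_mul, rr_ne (Ne.symm hc3)] at this
        exact this) with ⟨⟨c, hc1, hc2, hc3⟩, hc⟩ | hc
    · have e1 : rr c ⁅of j, of k⁆ * cc i (of c) * (rr c ⁅of j, of k⁆)⁻¹ * (cc i (of c))⁻¹ =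
          cc i (of c) * cc i ⁅of j, of k⁆ * (cc i (of c))⁻¹ := by
        rw [(pres_rr (i := i) (p := c) (Ne.symm hc1) (kil_comm_of (Ne.symm hij)
            (Ne.symm hik))).cc (of c), rr_self, kil_comm_of (Ne.symm hc2) (Ne.symm hc3), map_mul]
      have hc' : b * (cc i (of c) * cc i ⁅of j, of k⁆ * (cc i (of c))⁻¹) * b⁻¹ ∈ K := by
        rw [← e1]; exact hc
      have hg : b * (cc i (of c))⁻¹ * b⁻¹ ∈ Γ :=
        hN.conj_mem _ (Γ.inv_mem (hIA (cc_mem_IA _ _))) b
      have := kerA_conj hg hc'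
      convert this using 1
      group
    · rw [map_commutatorElement]
      exact hc
  -- the quotient homomorphism
  let q : MulAut (FreeGroup ι) →* MulAut (FreeGroup ι) ⧸ N := QuotientGroup.mk' N
  have hq1 : ∀ x, q x = 1 ↔ x ∈ N := fun x => QuotientGroup.eq_one_iff x
  have hqc : ∀ x y, Commute (q x) (q y) → x * y * x⁻¹ * y⁻¹ ∈ N := by
    intro x y h
    rw [← hq1, map_mul, map_mul, map_mul, map_inv, map_inv, h.eq]
    group
  have hkills : Kills q := ⟨fun g => (hq1 _).2 (hIK g),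
    fun i j k h1 h2 => (hq1 _).2 (hcck i j k h1 h2)⟩
  let m := Γ.index
  have hm0 : 0 < m := Nat.pos_of_ne_zero hfi.index_ne_zero
  have hpow : ∀ a : MulAut (FreeGroup ι), a ^ m ∈ Γ := fun a => Γ.pow_index_mem a
  have hNK : N ≤ K := Subgroup.normalCore_le K
  -- step 2a
  have h2a : ∀ i p l, i ≠ p → i ≠ l → p ≠ l → rr i ⁅of p ^ (m * m), of l⁆ ∈ N := by
    intro i p l hip hil hpl
    rw [hmN]
    intro b
    have hr : 2 * Fintype.card ι - 4 ≤ 2 * Nat.card {c : ι // c ≠ i ∧ c ≠ p ∧ c ≠ l} + 2 := by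
      have := card_ne3 i p l
      omega
    have hT : (rr i ⁅of p ^ m, of l⁆) ^ m * (rr i ⁅of p ^ (m * m), of l⁆)⁻¹ ∈ N := by
      rw [← hq1, map_mul, map_inv, map_pow, mul_inv_eq_one]
      show (tt q i (of p ^ m) (of l)) ^ m = tt q i (of p ^ (m * m)) (of l)
      rw [pow_mul, hkills.tt_pow_left i (of p ^ m)]
    have hfin : b * rr i ⁅of p ^ m, of l⁆ * b⁻¹ ∈ K → b * rr i ⁅of p ^ (m * m), of l⁆ * b⁻¹ ∈ K := by
      intro h
      have h1 := K.pow_mem h m
      rw [conj_pow] at h1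
      have h2 := hNK (hNnorm.conj_mem _ hT b)
      have h3 := K.mul_mem (K.inv_mem h2) h1
      convert h3 using 1
      group
    rcases doubleK (ρ := ρ) hH hr (fun c : {c : ι // c ≠ i ∧ c ≠ p ∧ c ≠ l} =>
        rr i ⁅of (c : ι), of l⁆) (fun c => rr (c : ι) (of p ^ m)) (rr i (of p ^ m))
      (rr i (of l ^ m)) b
      (fun c => hIA (rr_comm_mem_IA _ _ _)) (fun c => by rw [map_pow]; exact hpow _)
      (by rw [map_pow]; exact hpow _) (by rw [map_pow]; exact hpow _) (by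
        rintro ⟨c, hc1, hc2, hc3⟩ ⟨d, hd1, hd2, hd3⟩
        apply hqc
        exact hkills.tt_comm i (of c) (of l) (of d) (of l)) (by
        rintro ⟨d, hd1, hd2, hd3⟩ ⟨c, hc1, hc2, hc3⟩ hcd
        apply hcomm1
        have hcd' : d ≠ c := fun h => hcd (by subst h; rfl)
        have hk : kil i (of p ^ m) = of p ^ m := by rw [map_pow, kil_ne (Ne.symm hip)]
        have := (pres_rr (i := i) (p := c) (Ne.symm hc1) hk).rr ⁅of d, of l⁆
        rw [mul_inv_eq_iff_eq_mul, rr_fix c _ (kil_comm_of hcd' (Ne.symm hc3))] at this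
        exact this.symm) (by
        rintro ⟨c, hc1, hc2, hc3⟩
        apply hqc
        exact hkills.tt_rr i (of c) (of l) _) (by
        rintro ⟨c, hc1, hc2, hc3⟩
        apply hqc
        exact hkills.tt_rr i (of c) (of l) _) with ⟨⟨c, hc1, hc2, hc3⟩, hc⟩ | hc
    · apply hfin
      have hk : kil i (of p ^ m) = of p ^ m := by rw [map_pow, kil_ne (Ne.symm hip)]
      have hk2 : kil c (of p ^ m) = of p ^ m := by rw [map_pow, kil_ne (Ne.symm hc2)]
      have e1 : rr c (of p ^ m) * rr i ⁅of c, of l⁆ * (rr c (of p ^ m))⁻¹ =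
          rr i ⁅of c * of p ^ m, of l⁆ := by
        rw [(pres_rr (i := i) (p := c) (Ne.symm hc1) hk).rr, map_commutatorElement, rr_self,
          rr_ne (Ne.symm hc3), hk2]
      have e2 : (rr i ⁅of c, of l⁆ * rr c (of p ^ m) * (rr i ⁅of c, of l⁆)⁻¹ *
          (rr c (of p ^ m))⁻¹) * rr i ⁅of p ^ m, of l⁆ ∈ N := by
        have e1' : rr i ⁅of c, of l⁆ * rr c (of p ^ m) * (rr i ⁅of c, of l⁆)⁻¹ *
          (rr c (of p ^ m))⁻¹ = rr i ⁅of c, of l⁆ * (rr i ⁅of c * of p ^ m, of l⁆)⁻¹ := by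
          rw [← e1]; group
        rw [← hq1, e1', map_mul, map_mul, map_inv]
        show (tt q i (of c) (of l)) * (tt q i (of c * of p ^ m) (of l))⁻¹ *
          (tt q i (of p ^ m) (of l)) = 1
        rw [hkills.tt_mul_left, (hkills.tt_comm i (of c) (of l) (of p ^ m) (of l)).eq]
        group
      have e3 := hNK (hNnorm.conj_mem _ e2 b)
      have e4 := K.mul_mem (K.inv_mem hc) e3
      convert e4 using 1
      group
    · have e2 : (rr i (of p ^ m) * rr i (of l ^ m) * (rr i (of p ^ m))⁻¹ * (rr i (of l ^ m))⁻¹)⁻¹ *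
          rr i ⁅of p ^ (m * m), of l⁆ ∈ N := by
        have e1 : rr i (of p ^ m) * rr i (of l ^ m) * (rr i (of p ^ m))⁻¹ * (rr i (of l ^ m))⁻¹ =
            rr i ⁅of p ^ m, of l ^ m⁆ := by
          rw [map_commutatorElement]; rfl
        rw [e1, ← hq1, map_mul, map_inv, inv_mul_eq_one]
        show tt q i (of p ^ m) (of l ^ m) = tt q i (of p ^ (m * m)) (of l)
        rw [hkills.tt_swap i (of l ^ m) (of p ^ m), hkills.tt_pow_left,
          hkills.tt_swap i (of p ^ m) (of l), hkills.tt_pow_left, hkills.tt_pow_left, inv_pow,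
          inv_inv, ← pow_mul]
      have e3 := hNK (hNnorm.conj_mem _ e2 b)
      have e4 := K.mul_mem hc e3
      convert e4 using 1
      group
  have h2a' : ∀ i p l, i ≠ p → q (rr i ⁅of p ^ (m * m), of l⁆) = 1 := by
    intro i p l hip
    by_cases hil : i = l
    · subst hil
      exact hkills.tt_self' i _
    by_cases hpl : p = l
    · subst hpl
      have : ⁅of p ^ (m * m), of p⁆ = (1 : FreeGroup ι) := by
        rw [commutatorElement_eq_one_iff_commute]
        exact (Commute.refl _).pow_left _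
      rw [this, map_one, map_one]
    · exact (hq1 _).2 (h2a i p l hip hil hpl)
  -- step 2b
  set m2 := m * m with hm2
  have hpow2 : ∀ a : MulAut (FreeGroup ι), a ^ m2 ∈ Γ := fun a => by
    rw [hm2, pow_mul]; exact hpow _
  have h2b : ∀ i p, i ≠ p → (rr i (of p)) ^ (m2 * m2) ∈ N := by
    intro i p hip
    obtain ⟨l, hli, hlp, -⟩ := exists_ne3 h4 i p p
    rw [hmN]
    intro b
    have hr : 2 * Fintype.card ι - 4 ≤ 2 * Nat.card {c : ι // c ≠ i ∧ c ≠ p ∧ c ≠ l} + 2 := by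
      have := card_ne3 i p l
      omega
    have hcom : ∀ c d, c ≠ i → d ≠ i →
        Commute (q (rr i (of c ^ m2))) (q (rr i (of d))) := by
      intro c d hc hd
      have := h2a' i c d (Ne.symm hc)
      rwa [map_commutatorElement, map_commutatorElement,
        commutatorElement_eq_one_iff_commute] at this
    have hcom2 : ∀ c d, c ≠ i → d ≠ i →
        Commute (q (rr i (of c ^ m2))) (q (rr i (of d ^ m2))) := by
      intro c d hc hd
      rw [map_pow (rr i) (of d), map_pow q]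
      exact (hcom c d hc hd).pow_right _
    have hk : kil i (of p ^ m2) = of p ^ m2 := by rw [map_pow, kil_ne (Ne.symm hip)]
    -- the key computation
    have key : ∀ c, c ≠ i → c ≠ p → b * (rr i (of c ^ m2) * rr c (of p ^ m2) *
        (rr i (of c ^ m2))⁻¹ * (rr c (of p ^ m2))⁻¹) * b⁻¹ ∈ K →
        b * (rr i (of p)) ^ (m2 * m2) * b⁻¹ ∈ K := by
      intro c hc1 hc2 hc
      have hk2 : kil c (of p ^ m2) = of p ^ m2 := by rw [map_pow, kil_ne (Ne.symm hc2)]
      have e1 : rr c (of p ^ m2) * rr i (of c ^ m2) * (rr c (of p ^ m2))⁻¹ =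
          rr i ((of c * of p ^ m2) ^ m2) := by
        rw [(pres_rr (i := i) (p := c) (Ne.symm hc1) hk).rr, map_pow, rr_self, hk2]
      have hcomm : Commute (q (rr i (of c))) (q (rr i (of p ^ m2))) :=
        (hcom p c (Ne.symm hip) hc1).symm
      have e5 : q (rr i ((of c * of p ^ m2) ^ m2)) =
          q (rr i (of c)) ^ m2 * (q (rr i (of p))) ^ (m2 * m2) := by
        calc q (rr i ((of c * of p ^ m2) ^ m2))
            = (q (rr i (of c)) * q (rr i (of p ^ m2))) ^ m2 := by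
              rw [map_pow (rr i), map_pow q, map_mul (rr i), map_mul q]
          _ = q (rr i (of c)) ^ m2 * (q (rr i (of p ^ m2))) ^ m2 := hcomm.mul_pow m2
          _ = _ := by rw [map_pow (rr i) (of p), map_pow q, ← pow_mul]
      have e2 : (rr i (of c ^ m2) * rr c (of p ^ m2) *
          (rr i (of c ^ m2))⁻¹ * (rr c (of p ^ m2))⁻¹) * (rr i (of p)) ^ (m2 * m2) ∈ N := by
        have e1' : rr i (of c ^ m2) * rr c (of p ^ m2) * (rr i (of c ^ m2))⁻¹ *
            (rr c (of p ^ m2))⁻¹ = rr i (of c ^ m2) * (rr i ((of c * of p ^ m2) ^ m2))⁻¹ := by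
          rw [← e1]; group
        rw [← hq1, e1', map_mul, map_mul, map_inv, e5, map_pow, map_pow, map_pow]
        have hcomm2 : Commute (q (rr i (of c)) ^ m2) (q (rr i (of p)) ^ (m2 * m2)) := by
          have : q (rr i (of p)) ^ (m2 * m2) = (q (rr i (of p ^ m2))) ^ m2 := by
            rw [map_pow, map_pow, pow_mul]
          rw [this]
          exact (hcomm.pow_left m2).pow_right m2
        rw [hcomm2.eq]
        group
      have e3 := hNK (hNnorm.conj_mem _ e2 b)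
      have e4 := K.mul_mem (K.inv_mem hc) e3
      convert e4 using 1
      group
    rcases doubleK (ρ := ρ) hH hr (fun c : {c : ι // c ≠ i ∧ c ≠ p ∧ c ≠ l} =>
        rr i (of (c : ι) ^ m2)) (fun c => rr (c : ι) (of p ^ m2)) (rr i (of l ^ m2))
        (rr l (of p ^ m2)) b
      (fun c => by rw [map_pow]; exact hpow2 _) (fun c => by rw [map_pow]; exact hpow2 _)
      (by rw [map_pow]; exact hpow2 _) (by rw [map_pow]; exact hpow2 _) (by
        rintro ⟨c, hc1, hc2, hc3⟩ ⟨d, hd1, hd2, hd3⟩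
        apply hqc
        exact hcom2 c d hc1 hd1) (by
        rintro ⟨d, hd1, hd2, hd3⟩ ⟨c, hc1, hc2, hc3⟩ hcd
        apply hcomm1
        have hcd' : d ≠ c := fun h => hcd (by subst h; rfl)
        have := (pres_rr (i := i) (p := c) (Ne.symm hc1) hk).rr (of d ^ m2)
        rw [mul_inv_eq_iff_eq_mul, rr_fix c _ (by rw [map_pow, kil_ne hcd'])] at this
        exact this.symm) (by
        rintro ⟨c, hc1, hc2, hc3⟩
        apply hqc
        exact hcom2 c l hc1 hli) (by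
        rintro ⟨c, hc1, hc2, hc3⟩
        apply hcomm1
        have := (pres_rr (i := i) (p := l) (Ne.symm hli) hk).rr (of c ^ m2)
        rw [mul_inv_eq_iff_eq_mul, rr_fix l _ (by rw [map_pow, kil_ne hc3])] at this
        exact this.symm) with ⟨⟨c, hc1, hc2, hc3⟩, hc⟩ | hc
    · exact key c hc1 hc2 hc
    · exact key l hli hlp hc
  exact ⟨m2 * m2, Nat.mul_pos (Nat.mul_pos hm0 hm0) (Nat.mul_pos hm0 hm0), hIK, hcck, h2b⟩

/-- Normal subgroups as in the linear step have finite index. -/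
theorem Step.finiteIndex {N : Subgroup (MulAut (FreeGroup ι))} [N.Normal] {M : ℕ}
    (h : Step N M) (hcard : 4 ≤ Fintype.card ι) : N.FiniteIndex := by
  let q : MulAut (FreeGroup ι) →* MulAut (FreeGroup ι) ⧸ N := QuotientGroup.mk' N
  have hq1 : ∀ x, q x = 1 ↔ x ∈ N := fun x => QuotientGroup.eq_one_iff x
  have hkills : Kills q := ⟨fun g => (hq1 _).2 (h.inn g),
    fun i j k h1 h2 => (hq1 _).2 (h.cck i j k h1 h2)⟩
  have := hkills.finite (QuotientGroup.mk'_surjective N) h.pos (fun i j hij => by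
    rw [← map_pow]; exact (hq1 _).2 (h.rrp i j hij)) hcard
  exact Subgroup.finiteIndex_of_finite_quotient

end

end Pool.Agent.Helper460_OutF
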