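import Pool.Agent.H12.CSP.A.Helper460_OutF.Comm
import Pool.Agent.H12.CSP.A.Helper460_OutF.St

set_option autoImplicit false
set_option linter.unusedSectionVars false
set_option linter.unusedSimpArgs false

namespace Pool.Agent.Helper460_OutF

open FreeGroup (of)
open Pool.Agent.Helper156.OF (SP toAut toAut_gl gl nv gl_nv gl_true eAut eAut_gl eFun genSet
  nielsen_generation Lt SP.map_nv)
open scoped commutatorElement Pointwise

variable {ι : Type} [DecidableEq ι]

section sp

lemma gl_cases (x : Lt ι) : gl x = of x.1 ∨ gl x = (of x.1)⁻¹ := by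
  obtain ⟨i, b⟩ := x
  cases b
  · right
    have : ((i, false) : Lt ι) = nv (i, true) := rfl
    rw [this, gl_nv, gl_true]
    rfl
  · left; exact gl_true i

lemma kil_gl_ne {i : ι} {x : Lt ι} (h : x.1 ≠ i) : kil i (gl x) = gl x := by
  rcases gl_cases x with h1 | h1 <;> rw [h1]
  · exact kil_ne h
  · rw [map_inv, kil_ne h]

lemma kil_gl_self (x : Lt ι) : kil x.1 (gl x) = 1 := by
  rcases gl_cases x with h1 | h1 <;> rw [h1]
  · exact kil_self _
  · rw [map_inv, kil_self, inv_one]

/-- The index permutation of a signed permutation. -/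
def spi (σ : SP ι) (i : ι) : ι := ((σ : Equiv.Perm (Lt ι)) (i, true)).1

lemma spi_inj (σ : SP ι) {i j : ι} (h : spi σ i = spi σ j) : i = j := by
  have := (Pool.Agent.Helper156.OF.fst_eq_iff (x := (σ : Equiv.Perm (Lt ι)) (i, true))
    (y := (σ : Equiv.Perm (Lt ι)) (j, true))).1 h
  rcases this with h1 | h1
  · exact congrArg Prod.fst ((σ : Equiv.Perm (Lt ι)).injective h1)
  · rw [← SP.map_nv] at h1
    exact congrArg Prod.fst ((σ : Equiv.Perm (Lt ι)).injective h1)

lemma toAut_of (σ : SP ι) (i : ι) : toAut σ (of i) = gl ((σ : Equiv.Perm (Lt ι)) (i, true)) :=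
  toAut_gl σ (i, true)

lemma sp_kil (σ : SP ι) (i : ι) (w : FreeGroup ι) :
    kil (spi σ i) (toAut σ w) = toAut σ (kil i w) := by
  have : (kil (spi σ i)).comp (toAut σ : FreeGroup ι →* FreeGroup ι) =
      (toAut σ : FreeGroup ι →* FreeGroup ι).comp (kil i) := by
    ext k
    simp only [MonoidHom.comp_apply, MonoidHom.coe_coe]
    rw [toAut_of]
    by_cases h1 : k = i
    · subst h1
      rw [kil_self, map_one]
      exact kil_gl_self _
    · rw [kil_ne h1, toAut_of, kil_gl_ne]
      intro h2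
      exact h1 (spi_inj σ h2)
  exact DFunLike.congr_fun this w

lemma sp_lr (σ : SP ι) (i : ι) (u w : FreeGroup ι) :
    toAut σ * lr i (u, w) = lr (spi σ i) (if ((σ : Equiv.Perm (Lt ι)) (i, true)).2 = true
      then (toAut σ u, toAut σ w) else (toAut σ w, toAut σ u)) * toAut σ := by
  apply aut_ext
  intro k
  rw [MulAut.mul_apply, MulAut.mul_apply]
  by_cases h1 : k = i
  · subst h1
    rw [lr_apply, lrH_self, map_mul, map_mul, map_inv, toAut_of]
    have hp : (σ : Equiv.Perm (Lt ι)) (k, true) =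
      (spi σ k, ((σ : Equiv.Perm (Lt ι)) (k, true)).2) := rfl
    rw [hp]
    cases hb : ((σ : Equiv.Perm (Lt ι)) (k, true)).2
    · have hgl : (gl (spi σ k, false) : FreeGroup ι) = (of (spi σ k))⁻¹ := by
        have : ((spi σ k, false) : Lt ι) = nv (spi σ k, true) := rfl
        rw [this, gl_nv, gl_true]
      rw [hgl, map_inv, if_neg (by simp), lr_apply, lrH_self, ← sp_kil, ← sp_kil]
      group
    · have hgl : (gl (spi σ k, true) : FreeGroup ι) = (of (spi σ k)) := gl_true _
      rw [hgl, if_pos rfl, lr_apply, lrH_self, ← sp_kil, ← sp_kil]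
  · rw [lr_fix i _ (kil_ne h1), lr_fix]
    rw [sp_kil, kil_ne h1]

end sp

section

variable {G : Type} [Group G] {q : MulAut (FreeGroup ι) →* G}

lemma sp_cc (σ : SP ι) (i : ι) (w : FreeGroup ι) :
    q (toAut σ) * q (cc i w) * (q (toAut σ))⁻¹ = q (cc (spi σ i) (toAut σ w)) := by
  rw [← map_inv, ← map_mul, ← map_mul]
  congr 1
  rw [mul_inv_eq_iff_eq_mul]
  show toAut σ * lr i (w, w) = _
  rw [sp_lr]
  split_ifs <;> rfl

lemma sp_rr (σ : SP ι) (i : ι) (w : FreeGroup ι) :
    q (toAut σ) * q (rr i w) * (q (toAut σ))⁻¹ = q (rr (spi σ i) (toAut σ w)) ∨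
    q (toAut σ) * q (rr i w) * (q (toAut σ))⁻¹ = q (ll (spi σ i) (toAut σ w)) := by
  rw [← map_inv, ← map_mul, ← map_mul]
  by_cases hb : ((σ : Equiv.Perm (Lt ι)) (i, true)).2 = true
  · left
    congr 1
    rw [mul_inv_eq_iff_eq_mul]
    show toAut σ * lr i (1, w) = _
    rw [sp_lr, if_pos hb, map_one]
    rfl
  · right
    congr 1
    rw [mul_inv_eq_iff_eq_mul]
    show toAut σ * lr i (1, w) = _
    rw [sp_lr, if_neg hb, map_one]
    rfl

/-- The global sign change. -/
def negA : SP ι :=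
  ⟨⟨nv, nv, fun x => by simp, fun x => by simp⟩, fun _ => rfl⟩

lemma toAut_negA (i : ι) : toAut (negA : SP ι) (of i) = (of i)⁻¹ := by
  rw [toAut_of]
  show gl (nv (i, true)) = _
  rw [gl_nv, gl_true]

lemma ll_pow (i j : ι) (M : ℕ) (h : q (rr i (of j)) ^ M = 1) : q (ll i (of j)) ^ M = 1 := by
  have e : toAut (negA : SP ι) * rr i (of j) * (toAut (negA : SP ι))⁻¹ = ll i (of j)⁻¹ := by
    rw [mul_inv_eq_iff_eq_mul]
    show toAut (negA : SP ι) * lr i (1, of j) = _
    rw [sp_lr, if_neg (by simp [negA, nv]), map_one, toAut_negA]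
    rfl
  have h2 := congrArg q e
  rw [map_mul, map_mul, map_inv] at h2
  have h3 : (q (ll i (of j)⁻¹)) ^ M = 1 := by
    rw [← h2, conj_pow, h]; group
  rw [map_inv, map_inv, inv_pow, inv_eq_one] at h3
  exact h3

variable (q) in
/-- The commuting set. -/
def XX : Set G := {g | (∃ i j, g = q (cc i (of j))) ∨ (∃ i j k, g = tt q i (of j) (of k))}

variable (q) in
/-- The abelian normal subgroup. -/
def H0 : Subgroup G := Subgroup.closure (XX q)

lemma XX_finite [Fintype ι] : (XX q).Finite := by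
  have h1 : (Set.range (fun p : ι × ι => q (cc p.1 (of p.2)))).Finite := Set.finite_range _
  have h2 : (Set.range (fun p : ι × ι × ι => tt q p.1 (of p.2.1) (of p.2.2))).Finite :=
    Set.finite_range _
  refine (h1.union h2).subset ?_
  rintro g (⟨i, j, rfl⟩ | ⟨i, j, k, rfl⟩)
  · exact Or.inl ⟨(i, j), rfl⟩
  · exact Or.inr ⟨(i, j, k), rfl⟩

lemma cc_mem_H0 (i : ι) (w : FreeGroup ι) : q (cc i w) ∈ H0 q := by
  induction w using FreeGroup.induction_on with
  | C1 => rw [map_one, map_one]; exact Subgroup.one_mem _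
  | of j => exact Subgroup.subset_closure (Or.inl ⟨i, j, rfl⟩)
  | inv_of j ih => rw [map_inv, map_inv]; exact Subgroup.inv_mem _ ih
  | mul a b ha hb => rw [map_mul, map_mul]; exact Subgroup.mul_mem _ ha hb

namespace Kills

variable (h : Kills q)

include h

lemma tt_mem_H0 (i : ι) (u v : FreeGroup ι) : tt q i u v ∈ H0 q := by
  induction u using FreeGroup.induction_on with
  | C1 => rw [h.tt_one_left]; exact Subgroup.one_mem _
  | of j =>
    rw [h.tt_swap i v (of j)]
    refine Subgroup.inv_mem _ ?_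
    induction v using FreeGroup.induction_on with
    | C1 => rw [h.tt_one_left]; exact Subgroup.one_mem _
    | of k => exact Subgroup.subset_closure (Or.inr ⟨i, k, j, rfl⟩)
    | inv_of k ih => rw [h.tt_inv_left]; exact Subgroup.inv_mem _ ih
    | mul a b ha hb => rw [h.tt_mul_left]; exact Subgroup.mul_mem _ ha hb
  | inv_of k ih => rw [h.tt_inv_left]; exact Subgroup.inv_mem _ ih
  | mul a b ha hb => rw [h.tt_mul_left]; exact Subgroup.mul_mem _ ha hb

lemma tt_pow_left (i : ι) (u v : FreeGroup ι) (M : ℕ) :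
    tt q i (u ^ M) v = tt q i u v ^ M := by
  induction M with
  | zero => rw [pow_zero, pow_zero, h.tt_one_left]
  | succ n ih => rw [pow_succ, pow_succ, h.tt_mul_left, ih]

variable [Fintype ι]

lemma XX_comm : ∀ a ∈ XX q, ∀ b ∈ XX q, a * b = b * a := by
  rintro a (⟨i, j, rfl⟩ | ⟨i, j, k, rfl⟩) b (⟨i', j', rfl⟩ | ⟨i', j', k', rfl⟩)
  · exact h.cc_cc _ _ _ _
  · exact h.cc_tt _ _ _ _ _
  · exact (h.cc_tt _ _ _ _ _).symm
  · exact h.tt_tt _ _ _ _ _ _

lemma H0_comm {a b : G} (ha : a ∈ H0 q) (hb : b ∈ H0 q) : a * b = b * a := by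
  have := Subgroup.isMulCommutative_closure h.XX_comm
  exact congrArg Subtype.val
    (this.is_comm.comm (⟨a, ha⟩ : Subgroup.closure (XX q)) ⟨b, hb⟩)

lemma XX_pow {M : ℕ} (hp : ∀ i j, i ≠ j → q (rr i (of j)) ^ M = 1) : ∀ a ∈ XX q, a ^ M = 1 := by
  have hp' : ∀ i j, q (rr i (of j)) ^ M = 1 := by
    intro i j
    by_cases hij : i = j
    · subst hij; rw [rr_of_self, map_one, one_pow]
    · exact hp i j hij
  rintro a (⟨i, j, rfl⟩ | ⟨i, j, k, rfl⟩)
  · rw [cc_eq, map_mul, (ll_rr_commute i (of j) (of j)).mul_pow, ll_pow i j M (hp' i j), hp' i j,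
      one_mul]
  · rw [← h.tt_pow_left]
    unfold tt
    rw [map_commutatorElement, map_commutatorElement, map_pow, map_pow, hp' i j,
      commutatorElement_one_left]

lemma H0_finite {M : ℕ} (hM : 0 < M) (hp : ∀ i j, i ≠ j → q (rr i (of j)) ^ M = 1) :
    Finite (H0 q) :=
  finite_closure_of_comm XX_finite h.XX_comm hM (h.XX_pow hp)

/-- Lemma A. -/
lemma conjA (p r i j : ι) :
    q (rr p (of r)) * q (cc i (of j)) * (q (rr p (of r)))⁻¹ ∈ H0 q := by
  by_cases hij : i = j
  · subst hij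
    rw [cc_of_self, map_one, mul_one, mul_inv_cancel]; exact Subgroup.one_mem _
  by_cases hpr : p = r
  · subst hpr
    rw [rr_of_self, map_one, one_mul, inv_one, mul_one]; exact cc_mem_H0 _ _
  by_cases hpi : p = i
  · subst hpi
    have : rr p (of r) * cc p (of j) * (rr p (of r))⁻¹ = cc p (of j) * rr p ⁅(of j)⁻¹, of r⁆ := by
      rw [cc_eq, ← mul_assoc, ← ll_rr_comm, commutatorElement_def, map_mul, map_mul,
        map_mul, inv_inv, map_inv, map_inv]
      group
    rw [← map_inv, ← map_mul, ← map_mul, this, map_mul]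
    exact Subgroup.mul_mem _ (cc_mem_H0 _ _) (h.tt_mem_H0 _ _ _)
  by_cases hri : r = i
  · subst hri
    by_cases hjp : j = p
    · subst hjp
      have := congrArg q (id5 (i := r) (p := j) (Ne.symm hpr))
      rw [map_mul, map_mul, map_mul] at this
      rw [this, mul_inv_cancel_right]
      exact Subgroup.mul_mem _ (cc_mem_H0 _ _) (cc_mem_H0 _ _)
    · have := congrArg q (id4 (i := r) (p := p) (Ne.symm hpr) (w := of j) (kil_ne (Ne.symm hij))
        (kil_ne hjp))
      rw [map_mul, map_mul, map_mul] at this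
      rw [this, mul_inv_cancel_right]
      refine Subgroup.mul_mem _ (cc_mem_H0 _ _) ?_
      have := h.tt_mem_H0 p (of j) (of r)
      unfold tt at this
      rwa [commutatorElement_def] at this
  · rw [conj_cc (pres_rr (Ne.symm hpi) (kil_ne hri))]
    exact cc_mem_H0 _ _

/-- The hard case of Lemma B. -/
lemma conjB_hard {i p k : ι} (hip : i ≠ p) (hki : k ≠ i) (hkp : k ≠ p) :
    q (rr p (of i)) * tt q i (of p) (of k) * (q (rr p (of i)))⁻¹ ∈ H0 q := by
  -- express `tt i p k`
  have e0 : tt q i (of p) (of k) =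
      (q (cc k (of p)))⁻¹ * q (rr i (of k)) * q (cc k (of p)) * (q (rr i (of k)))⁻¹ := by
    have := congrArg q (id4 (i := k) (p := i) hki (w := of p) (kil_ne (Ne.symm hkp))
      (kil_ne (Ne.symm hip)))
    rw [map_mul, map_mul, map_mul] at this
    rw [mul_assoc (q (cc k (of p)))⁻¹, this]
    unfold tt
    rw [commutatorElement_def]
    group
  set E := q (rr p (of i)) with hE
  have e1 : E * q (cc k (of p)) * E⁻¹ = q (cc k (of p)) * q (cc k (of i)) := by
    rw [hE, conj_cc (pres_rr hkp (kil_ne (Ne.symm hki))), rr_self, kil_ne hip, map_mul, map_mul]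
  set P := q (rr p (of k)) with hP
  have e2 : E * q (rr i (of k)) * E⁻¹ = q (rr i (of k)) * (tt q p (of i) (of k)⁻¹ * P⁻¹) := by
    have := congrArg q (id3 (i := i) (p := p) hip (w := of k) (kil_ne hki) (kil_ne hkp))
    rw [map_mul, map_mul, map_mul] at this
    rw [hE, this, mul_inv_cancel_right]
    congr 1
    unfold tt
    rw [hP, ← map_inv, ← map_inv, ← map_mul, ← map_mul, commutatorElement_def]
    congr 2
    group
  set Y := q (cc k (of p)) * q (cc k (of i)) with hY
  set E' := q (rr i (of k)) * (tt q p (of i) (of k)⁻¹ * P⁻¹) with hE'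
  have e3 : E * tt q i (of p) (of k) * E⁻¹ = Y⁻¹ * (E' * Y * E'⁻¹) := by
    rw [e0, ← e1, ← e2]; group
  have hYmem : Y ∈ H0 q := Subgroup.mul_mem _ (cc_mem_H0 _ _) (cc_mem_H0 _ _)
  rw [e3]
  refine Subgroup.mul_mem _ (Subgroup.inv_mem _ hYmem) ?_
  -- the conjugate of `Y` by `P⁻¹`
  have c1 : P⁻¹ * q (cc k (of p)) * P = (q (cc p (of k)))⁻¹ * q (cc k (of p)) := by
    have := congrArg q (id5 (i := k) (p := p) hkp)
    rw [map_mul, map_mul, map_mul] at this
    have hc : Commute P (q (cc p (of k))) := by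
      rw [cc_eq, map_mul]
      exact ((ll_rr_commute p (of k) (of k)).symm).mul_right (Commute.refl _)
    rw [← hP] at this
    have h2 : P⁻¹ * q (cc k (of p)) = P⁻¹ * (q (cc p (of k)))⁻¹ * (P * q (cc k (of p))) * P⁻¹ := by
      rw [this]; group
    rw [h2, hc.inv_left.inv_right.eq]
    group
  have c2 : P⁻¹ * q (cc k (of i)) * P = q (cc k (of i)) * (tt q p (of i) (of k))⁻¹ := by
    have := congrArg q (id4 (i := k) (p := p) hkp (w := of i) (kil_ne (Ne.symm hki))
      (kil_ne hip))
    rw [map_mul, map_mul, map_mul] at this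
    have htt : q (rr p (of i * of k * (of i)⁻¹ * (of k)⁻¹)) = tt q p (of i) (of k) := by
      unfold tt; rw [commutatorElement_def]
    rw [← hP, htt] at this
    have hc : Commute (tt q p (of i) (of k)) P := h.tt_rr _ _ _ _
    have h2 : q (cc k (of i)) = P * q (cc k (of i)) * P⁻¹ * (tt q p (of i) (of k))⁻¹ := by
      rw [this]; group
    conv_lhs => rw [h2]
    rw [mul_assoc (P * q (cc k (of i))), ← hc.inv_left.inv_right.eq]
    group
  have c3 : E' * Y * E'⁻¹ = q (rr i (of k)) * ((q (cc p (of k)))⁻¹ * q (cc k (of p)) *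
      (q (cc k (of i)) * (tt q p (of i) (of k))⁻¹)) * (q (rr i (of k)))⁻¹ := by
    have h1 : P⁻¹ * Y * P = (q (cc p (of k)))⁻¹ * q (cc k (of p)) *
      (q (cc k (of i)) * (tt q p (of i) (of k))⁻¹) := by
      rw [← c1, ← c2, hY]; group
    have hmem : P⁻¹ * Y * P ∈ H0 q := by
      rw [h1]
      exact Subgroup.mul_mem _ (Subgroup.mul_mem _ (Subgroup.inv_mem _ (cc_mem_H0 _ _))
        (cc_mem_H0 _ _)) (Subgroup.mul_mem _ (cc_mem_H0 _ _)
        (Subgroup.inv_mem _ (h.tt_mem_H0 _ _ _)))
    have hcm := h.H0_comm (h.tt_mem_H0 p (of i) (of k)⁻¹) hmem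
    have h2 : tt q p (of i) (of k)⁻¹ * (P⁻¹ * Y * P) * (tt q p (of i) (of k)⁻¹)⁻¹ =
        P⁻¹ * Y * P := by rw [hcm]; group
    rw [← h1, ← h2, hE']
    group
  rw [c3]
  have d : q (rr i (of k)) * ((q (cc p (of k)))⁻¹ * q (cc k (of p)) *
      (q (cc k (of i)) * (tt q p (of i) (of k))⁻¹)) * (q (rr i (of k)))⁻¹ =
      (q (rr i (of k)) * q (cc p (of k)) * (q (rr i (of k)))⁻¹)⁻¹ *
      (q (rr i (of k)) * q (cc k (of p)) * (q (rr i (of k)))⁻¹) *
      ((q (rr i (of k)) * q (cc k (of i)) * (q (rr i (of k)))⁻¹) *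
      (q (rr i (of k)) * tt q p (of i) (of k) * (q (rr i (of k)))⁻¹)⁻¹) := by group
  rw [d]
  refine Subgroup.mul_mem _ (Subgroup.mul_mem _ (Subgroup.inv_mem _ (h.conjA _ _ _ _))
    (h.conjA _ _ _ _)) (Subgroup.mul_mem _ (h.conjA _ _ _ _) (Subgroup.inv_mem _ ?_))
  rw [conj_tt (pres_rr (Ne.symm hip) (kil_ne hkp))]
  exact h.tt_mem_H0 _ _ _

/-- Lemma B. -/
lemma conjB (p r i j k : ι) :
    q (rr p (of r)) * tt q i (of j) (of k) * (q (rr p (of r)))⁻¹ ∈ H0 q := by
  by_cases hij : j = i
  · subst hij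
    rw [h.tt_self, mul_one, mul_inv_cancel]; exact Subgroup.one_mem _
  by_cases hik : k = i
  · subst hik
    rw [h.tt_self', mul_one, mul_inv_cancel]; exact Subgroup.one_mem _
  by_cases hpr : p = r
  · subst hpr
    rw [rr_of_self, map_one, one_mul, inv_one, mul_one]; exact h.tt_mem_H0 _ _ _
  by_cases hpi : p = i
  · subst hpi
    rw [← (h.tt_rr p (of j) (of k) (of r)).eq, mul_inv_cancel_right]
    exact h.tt_mem_H0 _ _ _
  by_cases hri : r = i
  · subst hri
    by_cases hjp : j = p
    · subst hjp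
      by_cases hkj : k = j
      · subst hkj
        rw [h.tt_same, mul_one, mul_inv_cancel]; exact Subgroup.one_mem _
      · exact h.conjB_hard (Ne.symm hpr) hik hkj
    · by_cases hkp : k = p
      · subst hkp
        rw [h.tt_swap r (of k) (of j)]
        have := h.conjB_hard (i := r) (p := k) (k := j) (Ne.symm hpr) hij hjp
        have e : q (rr k (of r)) * (tt q r (of k) (of j))⁻¹ * (q (rr k (of r)))⁻¹ =
          (q (rr k (of r)) * tt q r (of k) (of j) * (q (rr k (of r)))⁻¹)⁻¹ := by group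
        rw [e]
        exact Subgroup.inv_mem _ this
      · have := congrArg q (id3 (i := r) (p := p) (Ne.symm hpr) (w := ⁅of j, of k⁆)
          (kil_comm_of hij hik) (kil_comm_of hjp hkp))
        rw [map_mul, map_mul, map_mul] at this
        have e : q (rr p (of r)) * tt q r (of j) (of k) * (q (rr p (of r)))⁻¹ =
            q (rr r ⁅of j, of k⁆) * q (rr p (of r * ⁅of j, of k⁆⁻¹ * (of r)⁻¹)) := by
          unfold tt
          rw [this, mul_inv_cancel_right]
        rw [e]
        refine Subgroup.mul_mem _ (h.tt_mem_H0 _ _ _) ?_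
        have hc := (h.tt_rr p (of j) (of k) (of r)).inv_left
        unfold tt at hc
        rw [map_mul, map_mul, map_mul, map_mul, map_inv, map_inv, map_inv, map_inv, ← hc.eq,
          mul_inv_cancel_right]
        exact Subgroup.inv_mem _ (h.tt_mem_H0 _ _ _)
  · rw [conj_tt (pres_rr (Ne.symm hpi) (kil_ne hri))]
    exact h.tt_mem_H0 _ _ _

variable {M : ℕ} (hM : 0 < M) (hp : ∀ i j, i ≠ j → q (rr i (of j)) ^ M = 1)

include hM hp

lemma rr_norm (p r : ι) : q (rr p (of r)) ∈ Subgroup.normalizer (H0 q : Set G) := by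
  have : Finite (Subgroup.closure (XX q)) := h.H0_finite hM hp
  refine mem_normalizer_closure (S := XX q) ?_
  rintro a (⟨i, j, rfl⟩ | ⟨i, j, k, rfl⟩)
  · exact h.conjA _ _ _ _
  · exact h.conjB _ _ _ _ _

lemma sp_norm (σ : SP ι) : q (toAut σ) ∈ Subgroup.normalizer (H0 q : Set G) := by
  have : Finite (Subgroup.closure (XX q)) := h.H0_finite hM hp
  refine mem_normalizer_closure (S := XX q) ?_
  rintro a (⟨i, j, rfl⟩ | ⟨i, j, k, rfl⟩)
  · rw [sp_cc]; exact cc_mem_H0 _ _
  · unfold tt
    rcases sp_rr (q := q) σ i ⁅of j, of k⁆ with h1 | h1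
    · rw [h1, map_commutatorElement]
      exact h.tt_mem_H0 _ _ _
    · rw [h1, map_commutatorElement]
      rw [← inv_inv (q (ll (spi σ i) ⁅toAut σ (of j), toAut σ (of k)⁆)), ← h.rr_eq]
      exact Subgroup.inv_mem _ (h.tt_mem_H0 _ _ _)

lemma rr_norm' (p : ι) (w : FreeGroup ι) : q (rr p w) ∈ Subgroup.normalizer (H0 q : Set G) := by
  induction w using FreeGroup.induction_on with
  | C1 => rw [map_one, map_one]; exact Subgroup.one_mem _
  | of j => exact h.rr_norm hM hp p j
  | inv_of j ih => rw [map_inv, map_inv]; exact Subgroup.inv_mem _ ih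
  | mul a b ha hb => rw [map_mul, map_mul]; exact Subgroup.mul_mem _ ha hb

lemma ll_norm' (p : ι) (w : FreeGroup ι) : q (ll p w) ∈ Subgroup.normalizer (H0 q : Set G) := by
  have e : q (ll p w) = q (cc p w) * (q (rr p w))⁻¹ := by
    rw [cc_eq, map_mul]; group
  rw [e]
  exact Subgroup.mul_mem _ (Subgroup.le_normalizer (cc_mem_H0 _ _))
    (Subgroup.inv_mem _ (h.rr_norm' hM hp p w))

end Kills

lemma eAut_eq (x a : Lt ι) (hxa : x.1 ≠ a.1) :
    eAut x a = if x.2 = true then rr x.1 (gl a) else ll x.1 (gl a) := by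
  obtain ⟨i, b⟩ := x
  have hk : kil i (gl a) = gl a := kil_gl_ne (Ne.symm hxa)
  apply aut_ext
  intro j
  rw [← gl_true, eAut_gl]
  have hi : ((i, b) : Lt ι).1 ≠ a.1 := hxa
  cases b
  · rw [if_neg (by simp)]
    unfold eFun
    rw [if_neg hi]
    by_cases hj : j = i
    · subst hj
      rw [if_neg (by simp), if_pos (by simp [nv]), gl_true, ll_self, hk]
      have : ((j, false) : Lt ι) = nv (j, true) := rfl
      rw [this, gl_nv, gl_true, inv_inv]
      rfl
    · rw [if_neg (by simp [hj]), if_neg (by simp [nv, hj]), gl_true, ll_ne hj]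
  · rw [if_pos rfl]
    unfold eFun
    rw [if_neg hi]
    by_cases hj : j = i
    · subst hj
      rw [if_pos rfl, gl_true, rr_self, hk]
    · rw [if_neg (by simp [hj]), if_neg (by simp [nv, hj]), gl_true, rr_ne hj]

/-- The subgroup generated by signed permutations, left and right transvections is everything. -/
lemma gen_top [Fintype ι] (K : Subgroup (MulAut (FreeGroup ι))) (h1 : ∀ σ : SP ι, toAut σ ∈ K)
    (h2 : ∀ i w, rr i w ∈ K) (h3 : ∀ i w, ll i w ∈ K) : K = ⊤ := by
  rw [eq_top_iff]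
  intro φ _
  have := nielsen_generation φ
  refine (Subgroup.closure_le K).2 ?_ this
  rintro _ (⟨σ, rfl⟩ | ⟨x, a, hxa, rfl⟩)
  · exact h1 σ
  · rw [eAut_eq x a hxa]
    split_ifs
    · exact h2 _ _
    · exact h3 _ _

/-- **Finiteness theorem.** -/
theorem Kills.finite [Fintype ι] (h : Kills q) (hs : Function.Surjective q) {M : ℕ} (hM : 0 < M)
    (hp : ∀ i j, i ≠ j → q (rr i (of j)) ^ M = 1) (hcard : 4 ≤ Fintype.card ι) : Finite G := by
  classical
  have hfin := h.H0_finite hM hp
  have hnorm : (H0 q).Normal := by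
    rw [← Subgroup.normalizer_eq_top_iff]
    have : (Subgroup.normalizer (H0 q : Set G)).comap q = ⊤ :=
      gen_top _ (fun σ => h.sp_norm hM hp σ) (fun i w => h.rr_norm' hM hp i w)
        (fun i w => h.ll_norm' hM hp i w)
    rw [eq_top_iff]
    intro x _
    obtain ⟨a, rfl⟩ := hs x
    have ha : a ∈ (Subgroup.normalizer (H0 q : Set G)).comap q := by rw [this]; trivial
    exact ha
  let π := QuotientGroup.mk' (H0 q)
  let q' : MulAut (FreeGroup ι) →* G ⧸ H0 q := π.comp q
  have hπ : ∀ x, π x = 1 ↔ x ∈ H0 q := fun x => QuotientGroup.eq_one_iff x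
  have hcc : ∀ i w, q' (cc i w) = 1 := fun i w => (hπ _).2 (cc_mem_H0 i w)
  have htt : ∀ i u v, q' (rr i ⁅u, v⁆) = 1 := fun i u v => (hπ _).2 (h.tt_mem_H0 i u v)
  have hll : ∀ i w, q' (ll i w) = (q' (rr i w))⁻¹ := by
    intro i w
    have := hcc i w
    rw [cc_eq, map_mul] at this
    exact eq_inv_of_mul_eq_one_left this
  let e : ι → ι → G ⧸ H0 q := fun i j => q' (rr i (of j))
  have hSt : StRel e M := by
    refine ⟨?_, ?_, ?_⟩
    · intro i j k l hij hkl hjk hil
      show q' (rr i (of j)) * q' (rr k (of l)) = q' (rr k (of l)) * q' (rr i (of j))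
      by_cases hik : i = k
      · subst hik
        have := htt i (of j) (of l)
        rw [map_commutatorElement, map_commutatorElement,
          commutatorElement_eq_one_iff_mul_comm] at this
        exact this
      · have : rr i (of j) * rr k (of l) = rr k (of l) * rr i (of j) :=
          lr_lr_comm hik (map_one _) (kil_ne hjk) (map_one _) (kil_ne (Ne.symm hil))
        rw [← map_mul, this, map_mul]
    · intro i j k hij hjk hik
      show q' (rr j (of k)) * q' (rr i (of j)) = q' (rr i (of j)) * q' (rr i (of k)) *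
        q' (rr j (of k))
      have := conj_rr (q := q') (pres_rr hij (kil_ne (Ne.symm hik))) (of j)
      rw [mul_inv_eq_iff_eq_mul, rr_self, kil_ne (Ne.symm hjk), map_mul, map_mul] at this
      exact this
    · intro i j hij
      show (q' (rr i (of j))) ^ M = 1
      have := congrArg π (hp i j hij)
      rw [map_pow, map_one] at this
      exact this
  have hE := hSt.finite hM hcard
  set E := Subgroup.closure (gs e (fun _ _ => True)) with hEdef
  have hmemE : ∀ i w, q' (rr i w) ∈ E := by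
    intro i w
    induction w using FreeGroup.induction_on with
    | C1 => rw [map_one, map_one]; exact Subgroup.one_mem _
    | of j =>
      by_cases hij : i = j
      · subst hij; rw [rr_of_self, map_one]; exact Subgroup.one_mem _
      · exact mem_gs (e := e) hij trivial
    | inv_of j ih => rw [map_inv, map_inv]; exact Subgroup.inv_mem _ ih
    | mul a b ha hb => rw [map_mul, map_mul]; exact Subgroup.mul_mem _ ha hb
  let S : Subgroup (G ⧸ H0 q) := (q'.comp toAut).range
  have hSfin : Finite S := by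
    have : Finite (SP ι) := inferInstance
    have : Finite (Set.range (q'.comp (toAut : SP ι →* _))) := Set.finite_range _
    exact this
  have hSE : S ≤ Subgroup.normalizer (E : Set (G ⧸ H0 q)) := by
    rintro _ ⟨σ, rfl⟩
    refine mem_normalizer_closure ?_
    rintro _ ⟨i, j, hij, -, rfl⟩
    show q' (toAut σ) * q' (rr i (of j)) * (q' (toAut σ))⁻¹ ∈ E
    rcases sp_rr (q := q') σ i (of j) with h1 | h1
    · rw [h1]; exact hmemE _ _
    · rw [h1, hll]; exact Subgroup.inv_mem _ (hmemE _ _)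
  have hSEfin : ((S ⊔ E : Subgroup (G ⧸ H0 q)) : Set (G ⧸ H0 q)).Finite := by
    rw [Subgroup.coe_mul_of_left_le_normalizer_right S E hSE]
    exact Set.Finite.mul (Set.toFinite _) (Set.toFinite _)
  have htop : (S ⊔ E).comap q' = ⊤ := by
    apply gen_top
    · intro σ
      exact (le_sup_left : S ≤ S ⊔ E) ⟨σ, rfl⟩
    · intro i w
      exact (le_sup_right : E ≤ S ⊔ E) (hmemE i w)
    · intro i w
      show q' (ll i w) ∈ S ⊔ E
      rw [hll]
      exact Subgroup.inv_mem _ ((le_sup_right : E ≤ S ⊔ E) (hmemE i w))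
  have hfinQ : Finite (G ⧸ H0 q) := by
    have : (Set.univ : Set (G ⧸ H0 q)) ⊆ ((S ⊔ E : Subgroup (G ⧸ H0 q)) : Set (G ⧸ H0 q)) := by
      intro x _
      obtain ⟨y, rfl⟩ := QuotientGroup.mk'_surjective (H0 q) x
      obtain ⟨a, rfl⟩ := hs y
      have ha : a ∈ (S ⊔ E).comap q' := by rw [htop]; trivial
      exact ha
    exact Set.finite_univ_iff.1 (hSEfin.subset this)
  exact finite_of_quotient (H0 q)

end

end Pool.Agent.Helper460_OutF
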